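import Mathlib
import Pool.Agent.N681.MK.Tan2

/-!
# The linearised recursion started with the coefficient zero
-/

open Pool.Agent.N989.MK

namespace Pool.Agent.N984.OPE

noncomputable section

/-- **the linearised recursion, started with the coefficient zero** -/
theorem zero_real {c C C' R : ℝ} (hc : 0 < c) (hC : 0 ≤ C) (hC' : 0 ≤ C') (hR : 0 ≤ R) :
    ∃ H0 K : ℝ, 1 ≤ H0 ∧ 0 ≤ K ∧ ∀ (H : ℝ) (J : ℕ) (h ρ a l : ℕ → ℝ), H0 ≤ H →
      TR c C H h ρ J → H ≤ h J → 0 ≤ ρ 0 → ρ 0 ≤ R →
      (∀ i ≤ J, 0 ≤ l i) → (∀ i < J, l (i + 1) ≤ l i / 4 + C' * |a i| / h i) →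
      (∀ i < J, |a (i + 1) - a i| ≤ C' * (l i / h i + (|a i| + l i) * (ρ i + 1 / h i) / h i)) →
      a 0 = 0 → ∀ i ≤ J, |a i| ≤ K * l 0 / h 0 ∧
        l i ≤ (1 / 4) ^ i * l 0 + K * l 0 / (h 0 * h i) := by
  obtain ⟨D, hD⟩ : ∃ D, D = 4 * C' := ⟨_, rfl⟩
  obtain ⟨K1, hK1⟩ : ∃ K1, K1 = 2 * C' * (2 + R + 4 * C) := ⟨_, rfl⟩
  obtain ⟨E1, hE1⟩ : ∃ E1, E1 = C' * ((1 + D) * R) := ⟨_, rfl⟩
  obtain ⟨E2, hE2⟩ : ∃ E2, E2 = C' * ((1 + D) * (4 * C + 1) + D) := ⟨_, rfl⟩
  obtain ⟨B1, hB1⟩ : ∃ B1, B1 = 4 / 3 * C * (R + 2) := ⟨_, rfl⟩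
  have hB10 : 0 ≤ B1 := by rw [hB1]; positivity
  have hD0 : 0 ≤ D := by rw [hD]; positivity
  have hK10 : 0 ≤ K1 := by rw [hK1]; positivity
  have hE10 : 0 ≤ E1 := by rw [hE1]; positivity
  have hE20 : 0 ≤ E2 := by rw [hE2]; positivity
  obtain ⟨H0, hH0⟩ : ∃ H0, H0 = 1 + (C + C * (R + 3)) + 2 * B1 +
    2 * (C + 4 / 3 * C ^ 2) / c + 2 * (c + C * (R + 3)) + 2 * (4 / 3 * E1 + 4 * E2 / c) := ⟨_, rfl⟩
  have z1 : 0 ≤ C + C * (R + 3) := by positivity
  have z2 : 0 ≤ 2 * (C + 4 / 3 * C ^ 2) / c := by positivity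
  have z3 : 0 ≤ 2 * (c + C * (R + 3)) := by positivity
  have z4 : 0 ≤ 2 * (4 / 3 * E1 + 4 * E2 / c) := by positivity
  refine ⟨H0, 2 * K1 + D * (2 * K1), by linarith, by positivity,
    fun H J h ρ a l hH t hJ r0 rR hl h1 h2 ha0 => ?_⟩
  have hH1 : 1 ≤ H := by linarith
  have hHp : 0 < H := by linarith
  have hCR : 0 ≤ C * (R + 3) := by positivity
  have hCH : C ≤ H := by linarith
  have hCH2 : C * (R + 3) ≤ H := by linarith
  have hcH : 2 * (C + 4 / 3 * C ^ 2) ≤ c * H := by
    have q5 : 2 * (C + 4 / 3 * C ^ 2) / c ≤ H := by linarith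
    rw [div_le_iff₀ hc] at q5
    nlinarith
  have hlo : ∀ i ≤ J, H ≤ h i := by
    intro i hi
    rcases Nat.lt_or_ge i J with h3 | h3
    · exact t.big i h3
    · obtain rfl : i = J := by omega
      exact hJ
  have hJ0 : 0 < h J := by linarith
  have F1 : ∀ s m, s + m ≤ J → h (s + m) / 2 + c / 2 * m ≤ h s := by
    intro s m hsm
    have h3 := t.crude hHp hC hCH hcH r0 rR s m hsm
    have h4 := hlo (s + m) hsm
    rw [← hB1] at h3
    linarith
  have F2 := t.ra2 hc.le hC hHp hCH hCH2 hH1 r0 rR hJ0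
  -- the coupling decreases slowly
  have F3 : ∀ s ≤ J, h 0 * (1 / 2) ^ s ≤ h s := by
    intro s
    induction s with
    | zero => intro _; simp
    | succ s ih =>
      intro hs
      have g1 := ih (by omega)
      have g2 := (abs_le.1 (t.st s (by omega))).1
      have g3 := t.bd hHp hC hCH r0 rR s (by omega)
      have g4 := hlo s (by omega)
      have g5 : 1 / h s ≤ 1 := by
        rw [div_le_one (by linarith)]
        linarith
      have g6 : C * (ρ s + 1 / h s) ≤ C * (R + 3) := mul_le_mul_of_nonneg_left (by linarith) hC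
      have e1 : h 0 * (1 / 2 : ℝ) ^ (s + 1) = h 0 * (1 / 2) ^ s / 2 := by rw [pow_succ]; ring
      rw [e1]
      linarith
  obtain ⟨x, hx⟩ : ∃ x, x = l 0 := ⟨_, rfl⟩
  have hx0 : 0 ≤ x := by rw [hx]; exact hl 0 (by omega)
  have hh0 : 0 < h 0 := by have := hlo 0 (by omega); linarith
  obtain ⟨A, hA⟩ : ∃ A, A = 2 * K1 * x / h 0 := ⟨_, rfl⟩
  have hA0 : 0 ≤ A := by rw [hA]; positivity
  rw [← hx]
  have key : ∀ i ≤ J, ∀ s ≤ i, |a s| ≤ A ∧ l s ≤ (1 / 4) ^ s * x + D * A / h s := by
    intro i
    induction i with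
    | zero =>
      intro _ s hs
      obtain rfl : s = 0 := by omega
      refine ⟨by rw [ha0, abs_zero]; exact hA0, ?_⟩
      have : 0 ≤ D * A / h 0 := by positivity
      simp only [pow_zero, one_mul]
      linarith
    | succ i ih =>
      intro hi
      have ih1 := ih (by omega)
      have hi0 : 0 < h i := by have := hlo i (by omega); linarith
      have hi1 : 0 < h (i + 1) := by have := hlo (i + 1) hi; linarith
      have hrec : 1 / h i ≤ 2 / h (i + 1) := by
        have h3 := F1 i 1 (by omega)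
        have h4 : 0 ≤ c / 2 * ((1 : ℕ) : ℝ) := by positivity
        rw [div_le_div_iff₀ hi0 hi1]
        linarith
      have hlb : l (i + 1) ≤ (1 / 4) ^ (i + 1) * x + D * A / h (i + 1) := by
        have h3 := h1 i (by omega)
        obtain ⟨h4, h5⟩ := ih1 i le_rfl
        have h6 : C' * |a i| / h i ≤ C' * A / h i :=
          div_le_div_of_nonneg_right (mul_le_mul_of_nonneg_left h4 hC') hi0.le
        have h8 : D * A / h i / 4 + C' * A / h i = (D / 4 + C') * A * (1 / h i) := by
          ring
        have h9 : (D / 4 + C') * A * (1 / h i) ≤ (D / 4 + C') * A * (2 / h (i + 1)) :=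
          mul_le_mul_of_nonneg_left hrec (by positivity)
        have h10 : (D / 4 + C') * A * (2 / h (i + 1)) = D * A / h (i + 1) := by
          rw [hD]; ring
        have h11 : (1 / 4 : ℝ) ^ (i + 1) * x = (1 / 4) ^ i * x / 4 := by
          rw [pow_succ]; ring
        rw [h11]
        linarith
      -- the increments
      have hinc : ∀ s ≤ i, |a (s + 1) - a s| ≤
          K1 / 2 * x / h 0 * (1 / 2) ^ s + A * (E1 / H * (1 / 4) ^ s + E2 * (1 / h s ^ 2)) := by
        intro s hs
        have hsH := hlo s (by omega)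
        have hs0 : 0 < h s := by linarith
        have hs1 : 1 ≤ h s := by linarith
        have g1 := h2 s (by omega)
        obtain ⟨g2, g3⟩ := ih1 s hs
        have g4 := F2 s (by omega)
        have g5 := hl s (by omega)
        have g6 : 0 ≤ ρ s := t.nonneg r0 s (by omega)
        obtain ⟨p, hp⟩ : ∃ p : ℝ, p = (1 / 4) ^ s := ⟨_, rfl⟩
        obtain ⟨q, hq⟩ : ∃ q : ℝ, q = (1 / 2) ^ s := ⟨_, rfl⟩
        have hpq : p = q * q := by
          rw [hp, hq, ← mul_pow]; norm_num
        have q0 : 0 < q := by rw [hq]; positivity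
        have q1 : q ≤ 1 := by rw [hq]; exact pow_le_one₀ (by norm_num) (by norm_num)
        have p0 : 0 ≤ p := by rw [hp]; positivity
        have p1 : p ≤ 1 := by rw [hp]; exact pow_le_one₀ (by norm_num) (by norm_num)
        rw [← hp] at g3 ⊢
        rw [← hq]
        have g11 : ρ s + 1 / h s ≤ p * R + (4 * C + 1) / h s := by
          rw [add_div, hp]; linarith
        obtain ⟨y, hy⟩ : ∃ y, y = 1 / h s := ⟨_, rfl⟩
        have y0 : 0 < y := by rw [hy]; positivity
        have y1 : y ≤ 1 := by rw [hy, div_le_one hs0]; exact hs1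
        have yH : y ≤ 1 / H := by rw [hy]; exact one_div_le_one_div_of_le hHp hsH
        have yq : p * y ≤ q / h 0 := by
          have g7 := F3 s (by omega)
          rw [← hq] at g7
          rw [hpq, hy, mul_one_div, div_le_div_iff₀ hs0 hh0]
          nlinarith
        have e1 : (4 * C + 1) / h s = (4 * C + 1) * y := by rw [hy]; ring
        have e2 : D * A / h s = D * A * y := by rw [hy]; ring
        have e3 : l s / h s = l s * y := by rw [hy]; ring
        have e4 : (|a s| + l s) * (ρ s + 1 / h s) / h s = (|a s| + l s) * (ρ s + 1 / h s) * y := by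
          rw [hy]; ring
        have e5 : 1 / h s ^ 2 = y ^ 2 := by rw [hy]; field_simp
        rw [e1] at g11
        rw [e2] at g3
        rw [e3, e4] at g1
        rw [e5]
        have g8 : |a s| + l s ≤ (1 + D) * A + p * x := by
          have : D * A * y ≤ D * A := mul_le_of_le_one_right (by positivity) y1
          linarith
        have g9 : (|a s| + l s) * (ρ s + 1 / h s) ≤
            ((1 + D) * A + p * x) * (p * R + (4 * C + 1) * y) :=
          mul_le_mul g8 g11 (by positivity) (by positivity)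
        have g10 : l s * y ≤ (p * x + D * A * y) * y := mul_le_mul_of_nonneg_right g3 y0.le
        have g12 : (|a s| + l s) * (ρ s + 1 / h s) * y ≤
            ((1 + D) * A + p * x) * (p * R + (4 * C + 1) * y) * y :=
          mul_le_mul_of_nonneg_right g9 y0.le
        have g13 : |a (s + 1) - a s| ≤ C' * ((p * x + D * A * y) * y +
            ((1 + D) * A + p * x) * (p * R + (4 * C + 1) * y) * y) :=
          g1.trans (mul_le_mul_of_nonneg_left (by linarith) hC')
        refine g13.trans ?_
        have g14 : p * x * (p * R + (4 * C + 1) * y) * y ≤ (R + 4 * C + 1) * x * (p * y) := by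
          have k1 : p * R + (4 * C + 1) * y ≤ R + 4 * C + 1 := by
            have : p * R ≤ R := mul_le_of_le_one_left hR p1
            have : (4 * C + 1) * y ≤ 4 * C + 1 := mul_le_of_le_one_right (by positivity) y1
            linarith
          have k2 : 0 ≤ x * (p * y) := by positivity
          calc p * x * (p * R + (4 * C + 1) * y) * y =
              (p * R + (4 * C + 1) * y) * (x * (p * y)) := by ring
            _ ≤ (R + 4 * C + 1) * (x * (p * y)) := mul_le_mul_of_nonneg_right k1 k2
            _ = _ := by ring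
        have g15 : (2 + R + 4 * C) * x * (p * y) ≤ (2 + R + 4 * C) * x * (q / h 0) :=
          mul_le_mul_of_nonneg_left yq (by positivity)
        have g16 : (1 + D) * R * A * (p * y) ≤ (1 + D) * R * A * (p * (1 / H)) :=
          mul_le_mul_of_nonneg_left (mul_le_mul_of_nonneg_left yH p0) (by positivity)
        have e6 : C' * ((p * x + D * A * y) * y +
            ((1 + D) * A + p * x) * (p * R + (4 * C + 1) * y) * y) =
            C' * (x * (p * y) + p * x * (p * R + (4 * C + 1) * y) * y) +
            C' * ((1 + D) * R * A * (p * y)) + A * (E2 * y ^ 2) := by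
          rw [hE2]; ring
        rw [e6]
        have g17 : x * (p * y) + p * x * (p * R + (4 * C + 1) * y) * y ≤
            (2 + R + 4 * C) * x * (q / h 0) := by
          have : x * (p * y) + (R + 4 * C + 1) * x * (p * y) = (2 + R + 4 * C) * x * (p * y) := by
            ring
          linarith
        have g18 := mul_le_mul_of_nonneg_left g17 hC'
        have g19 := mul_le_mul_of_nonneg_left g16 hC'
        have e7 : K1 / 2 * x / h 0 * q = C' * ((2 + R + 4 * C) * x * (q / h 0)) := by
          rw [hK1]; field_simp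
        have e8 : A * (E1 / H * p + E2 * y ^ 2) = C' * ((1 + D) * R * A * (p * (1 / H))) +
            A * (E2 * y ^ 2) := by
          rw [hE1]; ring
        rw [e7, e8]
        linarith
      have htel : |a (i + 1)| ≤ ∑ s ∈ Finset.range (i + 1), |a (s + 1) - a s| := by
        have h3 : a (i + 1) = ∑ s ∈ Finset.range (i + 1), (a (s + 1) - a s) := by
          rw [Finset.sum_range_sub (f := a), ha0, sub_zero]
        rw [h3]
        exact Finset.abs_sum_le_sum_abs _ _
      have hsum1 : ∑ s ∈ Finset.range (i + 1), |a (s + 1) - a s| ≤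
          ∑ s ∈ Finset.range (i + 1),
            (K1 / 2 * x / h 0 * (1 / 2) ^ s + A * (E1 / H * (1 / 4) ^ s + E2 * (1 / h s ^ 2))) :=
        Finset.sum_le_sum fun s hs => hinc s (by have := Finset.mem_range.1 hs; omega)
      have hgeo : ∑ s ∈ Finset.range (i + 1), (1 / 4 : ℝ) ^ s ≤ 4 / 3 := by
        refine (geo_le (by norm_num) (by norm_num) (i + 1)).trans ?_
        norm_num
      have hgeo2 : ∑ s ∈ Finset.range (i + 1), (1 / 2 : ℝ) ^ s ≤ 2 := by
        refine (geo_le (by norm_num) (by norm_num) (i + 1)).trans ?_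
        norm_num
      have hsq : ∑ s ∈ Finset.range (i + 1), 1 / h s ^ 2 ≤ 4 / c * (1 / h (i + 1)) := by
        have h3 : ∀ s ∈ Finset.range (i + 1), 1 / h s ^ 2 ≤
            1 / (h (i + 1) / 2 + c / 2 * (((i + 1 - 1 - s : ℕ) : ℝ) + 1)) ^ 2 := by
          intro s hs
          have hs' := Finset.mem_range.1 hs
          have h4 := F1 s (i + 1 - s) (by omega)
          have e1 : s + (i + 1 - s) = i + 1 := by omega
          have e2 : ((i + 1 - s : ℕ) : ℝ) = ((i + 1 - 1 - s : ℕ) : ℝ) + 1 := by
            have : i + 1 - s = (i + 1 - 1 - s) + 1 := by omega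
            rw [this]
            push_cast
            ring
          rw [e1, e2] at h4
          refine one_div_le_one_div_of_le (by positivity) ?_
          exact pow_le_pow_left₀ (by positivity) h4 2
        refine (Finset.sum_le_sum h3).trans ?_
        rw [Finset.sum_range_reflect (fun m : ℕ => 1 / (h (i + 1) / 2 + c / 2 * ((m : ℝ) + 1)) ^ 2)]
        refine (Pool.Agent.N681.MK.sum_inv_sq (by positivity) (by positivity) (i + 1)).trans
          (le_of_eq ?_)
        field_simp
        ring
      have hbd : |a (i + 1)| ≤ A := by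
        have h3 : ∑ s ∈ Finset.range (i + 1),
            (K1 / 2 * x / h 0 * (1 / 2) ^ s + A * (E1 / H * (1 / 4) ^ s + E2 * (1 / h s ^ 2))) =
            K1 / 2 * x / h 0 * ∑ s ∈ Finset.range (i + 1), (1 / 2 : ℝ) ^ s +
            A * (E1 / H * ∑ s ∈ Finset.range (i + 1), (1 / 4 : ℝ) ^ s +
              E2 * ∑ s ∈ Finset.range (i + 1), 1 / h s ^ 2) := by
          simp only [Finset.sum_add_distrib, ← Finset.mul_sum]
        rw [h3] at hsum1
        have h4 : K1 / 2 * x / h 0 * ∑ s ∈ Finset.range (i + 1), (1 / 2 : ℝ) ^ s ≤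
            K1 / 2 * x / h 0 * 2 := mul_le_mul_of_nonneg_left hgeo2 (by positivity)
        have h5 : E1 / H * ∑ s ∈ Finset.range (i + 1), (1 / 4 : ℝ) ^ s ≤ E1 / H * (4 / 3) :=
          mul_le_mul_of_nonneg_left hgeo (by positivity)
        have h6 := mul_le_mul_of_nonneg_left hsq hE20
        have h7 : 1 / h (i + 1) ≤ 1 / H := one_div_le_one_div_of_le hHp (hlo (i + 1) hi)
        have h8 : E2 * (4 / c * (1 / h (i + 1))) ≤ E2 * (4 / c * (1 / H)) := by
          refine mul_le_mul_of_nonneg_left (mul_le_mul_of_nonneg_left h7 (by positivity)) hE20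
        have h9 : E1 / H * (4 / 3) + E2 * (4 / c * (1 / H)) ≤ 1 / 2 := by
          have e1 : E1 / H * (4 / 3) + E2 * (4 / c * (1 / H)) =
              (4 / 3 * E1 + 4 * E2 / c) / H := by
            field_simp
          rw [e1, div_le_iff₀ hHp]
          linarith
        have h10 : A * (E1 / H * ∑ s ∈ Finset.range (i + 1), (1 / 4 : ℝ) ^ s +
              E2 * ∑ s ∈ Finset.range (i + 1), 1 / h s ^ 2) ≤ A * (1 / 2) :=
          mul_le_mul_of_nonneg_left (by linarith) hA0
        have e2 : K1 / 2 * x / h 0 * 2 = A / 2 := by rw [hA]; ring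
        linarith
      intro s hs
      rcases (show s ≤ i ∨ s = i + 1 by omega) with h3 | rfl
      · exact ih1 s h3
      · exact ⟨hbd, hlb⟩
  intro i hi
  obtain ⟨k1, k2⟩ := key i hi i le_rfl
  have hi0 : 0 < h i := by have := hlo i hi; linarith
  constructor
  · refine k1.trans ?_
    rw [hA]
    refine div_le_div_of_nonneg_right (mul_le_mul_of_nonneg_right ?_ hx0) hh0.le
    have : 0 ≤ D * (2 * K1) := by positivity
    linarith
  · refine k2.trans ?_
    have e : D * A / h i = D * (2 * K1) * x / (h 0 * h i) := by rw [hA]; field_simp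
    rw [e]
    have : D * (2 * K1) * x / (h 0 * h i) ≤ (2 * K1 + D * (2 * K1)) * x / (h 0 * h i) := by
      refine div_le_div_of_nonneg_right (mul_le_mul_of_nonneg_right ?_ hx0) (by positivity)
      linarith
    linarith

end

end Pool.Agent.N984.OPE
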