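import Mathlib
import Pool.Agent.N681.MK.TanDefs

/-!
# The operator product expansion of the renormalised field: definitions
-/

open MeasureTheory Pool.Agent.N989.MK
open scoped Topology

namespace Pool.Agent.N984.OPE

noncomputable section

variable {G : Type*} [Group G] [TopologicalSpace G] [IsTopologicalGroup G] [CompactSpace G]
  [MeasurableSpace G] [BorelSpace G] [SecondCountableTopology G]

/-- the square of a renormalised field is a tangent vector with the coefficient zero -/
def SqStep (μ : Measure G) (P : (G → ℝ) → ℝ → ℝ → Prop)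
    (T : (G → ℝ) → (G → ℝ) → ℝ → ℝ → ℝ → Prop) (h1 C' : ℝ) : Prop :=
  ∀ f g h ρ h' ρ' a l, P f h ρ → P (TT μ f) h' ρ' → T f g h a l → h1 ≤ h → h1 ≤ h' →
    T (TT μ f) (fun x => Pool.Agent.N681.MK.fld (TT μ f) (Pool.Agent.N681.MK.dTT μ f g) x ^ 2 *
      TT μ f x) h' 0 (C' * (|a| + l) ^ 2)

end

end Pool.Agent.N984.OPE
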