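import Mathlib
import Pool.Agent.N681.MK.Tan5
import Pool.Agent.N984.OPE.Real
import Pool.Agent.N984.OPE.SqDef

/-!
# The tangent flow of the square of the renormalised field
-/

open MeasureTheory Pool.Agent.N991.MK Pool.Agent.N989.MK Pool.Agent.N681.MK Filter
open scoped Topology

namespace Pool.Agent.N984.OPE

set_option linter.unusedSectionVars false

noncomputable section

variable {G : Type*} [Group G] [TopologicalSpace G] [IsTopologicalGroup G] [CompactSpace G]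
  [MeasurableSpace G] [BorelSpace G] [SecondCountableTopology G]
  {μ : Measure G} [IsProbabilityMeasure μ] [μ.IsHaarMeasure] [μ.IsMulRightInvariant]
  [μ.IsInvInvariant]

variable {P : (G → ℝ) → ℝ → ℝ → Prop} {T : (G → ℝ) → (G → ℝ) → ℝ → ℝ → ℝ → Prop}
  {o : G → ℝ} {κ h1 C' : ℝ} {Dm : ℕ} {c C R : ℝ}

/-- the tangent with the initial coefficient zero -/
theorem tan_zero (TF : TanFlow μ P T o κ h1 C' Dm) (hc : 0 < c) (hC : 0 ≤ C) (hR : 0 ≤ R) :
    ∃ H0 K : ℝ, 1 ≤ H0 ∧ 0 ≤ K ∧ h1 ≤ H0 ∧ ∀ (hq : ℝ) (f g : G → ℝ) (J : ℕ) (h ρ : ℕ → ℝ)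
      (l0 : ℝ), H0 ≤ hq → TP μ P c C hq R f J h ρ → T f g (h 0) 0 l0 →
      ∀ i ≤ J, ∃ a l : ℝ, T (TTn μ f i) (dTn μ f g i) (h i) a l ∧ |a| ≤ K * l0 / h 0 ∧
        l ≤ (1 / 4) ^ i * l0 + K * l0 / (h 0 * h i) := by
  obtain ⟨H0, K, b1, b2, b3⟩ := zero_real hc hC TF.C_nn hR
  refine ⟨max H0 h1, K, b1.trans (le_max_left _ _), b2, le_max_right _ _,
    fun hq f g J h ρ l0 hhq tf h0 => ?_⟩
  have hq1 : H0 ≤ hq := (le_max_left _ _).trans hhq
  have hq2 : h1 ≤ hq := (le_max_right _ _).trans hhq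
  obtain ⟨a, l, e1, e2, e3, e4, e5⟩ := tan_seq TF hq2 tf h0
  have h3 := b3 hq J h ρ a l hq1 tf.t (tf.lo J le_rfl) tf.r0 tf.r
    (fun i hi => TF.nn _ _ _ _ _ (e3 i hi)) e4 e5 e1
  rw [e2] at h3
  exact fun i hi => ⟨a i, l i, e3 i hi, h3 i hi⟩

/-- **the square of the renormalised field along a trajectory** -/
theorem sq_traj (TF : TanFlow μ P T o 1 h1 C' Dm) {h2 Cs : ℝ} (hSq : SqStep μ P T h2 Cs)
    (hCs : 0 ≤ Cs)
    (hsm : ∀ f g h a e (s : ℝ), T f g h a e → T f (fun x => s * g x) h (s * a) (|s| * e))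
    (hc : 0 < c) (hC : 0 ≤ C) (hR : 0 ≤ R) (ho : Continuous o) :
    ∃ H0 K : ℝ, 1 ≤ H0 ∧ 0 ≤ K ∧ ∀ (hq : ℝ) (f : G → ℝ) (Jt : ℕ) (h ρ : ℕ → ℝ), H0 ≤ hq →
      Adm f → TP μ P c C hq R f Jt h ρ → ∀ s J r, s + 1 + J + r = Jt →
      ∃ a aJ lJ : ℝ, T (TTn μ f (s + 1 + J)) (dTn μ (TTn μ f (s + 1))
          (fun x => evo μ f o (s + 1) x ^ 2 * TTn μ f (s + 1) x) J) (h (s + 1 + J)) aJ lJ ∧
        |aJ| ≤ K / h (s + 1) ∧ |aJ - a| ≤ K / (h (s + 1) * h (s + 1 + J)) ∧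
        lJ ≤ K * ((1 / 4) ^ J + 1 / h (s + 1 + J)) ∧
        ∀ x, |(evo μ (TTn μ f (s + 1)) (fun x => evo μ f o (s + 1) x ^ 2) (J + r) x -
            a * evo μ f o Jt x) * (TTn μ f Jt x / TTn μ f Jt 1)| ≤
          K * h Jt ^ Dm * (((1 / 4) ^ J + 1 / h (s + 1 + J)) *
            (1 / h (s + 1 + J) + (1 / 4) ^ r)) := by
  obtain ⟨HA, B, a1, a2, a3, a4, a5, a6⟩ := tan_flow (R := R) TF hc hC hR
  obtain ⟨HB, KB, b1, b2, b3, b4⟩ := tan_zero (R := R + 2) TF hc hC (by linarith)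
  obtain ⟨HC, KC, c1, c2, c3, c4⟩ := tan_zero (R := R + 2 + 2) TF hc hC (by linarith)
  have hC' := TF.C_nn
  obtain ⟨N, hN⟩ : ∃ N, N = |(1 : ℝ)| + C' := ⟨_, rfl⟩
  have hN1 : N = 1 + C' := by rw [hN, abs_one]
  have hN0 : 0 ≤ N := by rw [hN1]; positivity
  obtain ⟨N2, hN2⟩ : ∃ N2, N2 = 1 + B * N + C' + B * N := ⟨_, rfl⟩
  have hBN : 0 ≤ B * N := by positivity
  have hN20 : 0 ≤ N2 := by rw [hN2]; positivity
  obtain ⟨L0, hL0⟩ : ∃ L0, L0 = Cs * N2 ^ 2 := ⟨_, rfl⟩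
  have hL00 : 0 ≤ L0 := by rw [hL0]; positivity
  obtain ⟨K1, hK1⟩ : ∃ K1, K1 = L0 + KB * L0 := ⟨_, rfl⟩
  have hK10 : 0 ≤ K1 := by rw [hK1]; positivity
  obtain ⟨K2, hK2⟩ : ∃ K2, K2 = K1 + 2 * (KB * L0) * (C' + B * N) := ⟨_, rfl⟩
  have hK20 : 0 ≤ K2 := by rw [hK2]; positivity
  obtain ⟨H0, hH0⟩ : ∃ H0, H0 = max (max (max HA HB) (max HC h2)) (2 * (B * N)) := ⟨_, rfl⟩
  have q1 : HA ≤ H0 := by
    rw [hH0]; exact (le_max_left _ _).trans ((le_max_left _ _).trans (le_max_left _ _))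
  have q2 : HB ≤ H0 := by
    rw [hH0]; exact (le_max_right _ _).trans ((le_max_left _ _).trans (le_max_left _ _))
  have q3 : HC ≤ H0 := by
    rw [hH0]; exact (le_max_left _ _).trans ((le_max_right _ _).trans (le_max_left _ _))
  have q4 : h2 ≤ H0 := by
    rw [hH0]; exact (le_max_right _ _).trans ((le_max_right _ _).trans (le_max_left _ _))
  have q5 : 2 * (B * N) ≤ H0 := by rw [hH0]; exact le_max_right _ _
  obtain ⟨K, hK⟩ : ∃ K, K = K2 + 2 * (KB * L0) * (B * N) + C' * ((2 * KC + 1) * K2) := ⟨_, rfl⟩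
  have w1 : 0 ≤ 2 * (KB * L0) * (B * N) := by positivity
  have w2 : 0 ≤ C' * ((2 * KC + 1) * K2) := by positivity
  have w3 : K1 ≤ K2 := by
    rw [hK2]
    have : 0 ≤ 2 * (KB * L0) * (C' + B * N) := by positivity
    linarith
  have w4 : KB * L0 ≤ K1 := by rw [hK1]; linarith
  refine ⟨H0, K, a1.trans q1, by rw [hK]; positivity,
    fun hq f Jt h ρ hhq hf tf s J r hsum => ?_⟩
  have hq1 : 1 ≤ hq := (a1.trans q1).trans hhq
  have hq0 : 0 < hq := by linarith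
  have hCq : C ≤ hq := (a4.trans q1).trans hhq
  have hlo : ∀ i ≤ Jt, 0 < h i ∧ 1 ≤ h i ∧ 2 * (B * N) ≤ h i ∧ h2 ≤ h i := fun i hi => by
    have := tf.lo i hi
    exact ⟨by linarith, by linarith, by linarith, by linarith⟩
  have i0 : T f (fun x => o x * f x) (h 0) 1 C' :=
    TF.init _ _ _ (tf.p 0 (by omega)) ((a5.trans q1).trans (hhq.trans (tf.lo 0 (by omega))))
  -- the field before the square
  obtain ⟨as, ls, s1, s2, s3, -⟩ := a6 hq f _ Jt h ρ 1 C' (q1.trans hhq) tf i0 s (by omega)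
  rw [← hN] at s2 s3
  obtain ⟨g1, g2, g3, g4⟩ := hlo s (by omega)
  obtain ⟨g1', g2', g3', g4'⟩ := hlo (s + 1) (by omega)
  obtain ⟨k1, k2, k3, k4⟩ := hlo (s + 1 + J) (by omega)
  have hbn : ∀ y : ℝ, 1 ≤ y → B * N / y ≤ B * N := fun y hy => div_le_self hBN hy
  have hp1 : ∀ i : ℕ, (1 / 4 : ℝ) ^ i ≤ 1 := fun i => pow_le_one₀ (by norm_num) (by norm_num)
  have hp0 : ∀ i : ℕ, (0 : ℝ) ≤ (1 / 4 : ℝ) ^ i := fun i => by positivity
  have hls := TF.nn _ _ _ _ _ s1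
  have s4 : |as| + ls ≤ N2 := by
    have e1 := hbn (h s) g2
    have e2 := abs_sub_abs_le_abs_sub as 1
    rw [abs_one] at e2
    have e3 : (1 / 4 : ℝ) ^ s * C' ≤ C' := mul_le_of_le_one_left hC' (hp1 s)
    rw [hN2]
    linarith
  have t0 := hSq _ _ _ _ _ _ _ _ (tf.p s (by omega)) (tf.p (s + 1) (by omega)) s1 g4 g4'
  obtain ⟨l0, hl0⟩ : ∃ l0, l0 = Cs * (|as| + ls) ^ 2 := ⟨_, rfl⟩
  rw [← hl0] at t0
  have hl0' : l0 ≤ L0 := by
    rw [hl0, hL0]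
    exact mul_le_mul_of_nonneg_left (pow_le_pow_left₀ (by positivity) s4 2) hCs
  have hl00 : 0 ≤ l0 := by rw [hl0]; positivity
  -- the first steps
  have tf1 := TP_shift hq0 hC hCq tf (s := s + 1) (J' := J + r) (by omega)
  obtain ⟨aJ, lJ, u1, u2, u3⟩ := b4 hq (TTn μ f (s + 1))
    (fun x => evo μ f o (s + 1) x ^ 2 * TTn μ f (s + 1) x) (J + r) _ _ l0 (q2.trans hhq) tf1 t0 J
    (by omega)
  rw [← TTn_add] at u1
  beta_reduce at u1 u2 u3
  rw [add_zero] at u2 u3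
  have hlJ := TF.nn _ _ _ _ _ u1
  have u4 : |aJ| ≤ KB * L0 / h (s + 1) :=
    u2.trans (div_le_div_of_nonneg_right (mul_le_mul_of_nonneg_left hl0' b2) g1'.le)
  have y0 : 0 < 1 / h (s + 1 + J) := by positivity
  have u5 : lJ ≤ K1 * ((1 / 4) ^ J + 1 / h (s + 1 + J)) := by
    have e1 : (1 / 4 : ℝ) ^ J * l0 ≤ (1 / 4) ^ J * L0 := mul_le_mul_of_nonneg_left hl0' (hp0 J)
    have e2 : KB * l0 / (h (s + 1) * h (s + 1 + J)) ≤ KB * L0 * (1 / h (s + 1 + J)) := by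
      rw [mul_one_div]
      refine div_le_div₀ (by positivity) (mul_le_mul_of_nonneg_left hl0' b2) k1 ?_
      exact le_mul_of_one_le_left k1.le g2'
    have e3 : K1 * ((1 / 4) ^ J + 1 / h (s + 1 + J)) = (1 / 4) ^ J * L0 +
        KB * L0 * (1 / h (s + 1 + J)) + (KB * L0 * (1 / 4) ^ J + L0 * (1 / h (s + 1 + J))) := by
      rw [hK1]; ring
    have e4 : 0 ≤ KB * L0 * (1 / 4) ^ J + L0 * (1 / h (s + 1 + J)) := by
      have := hp0 J
      positivity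
    linarith
  -- the field at the same scale
  obtain ⟨aφ, lφ, v1, v2, v3, -⟩ := a6 hq f _ Jt h ρ 1 C' (q1.trans hhq) tf i0 (s + 1 + J)
    (by omega)
  rw [← hN] at v2 v3
  have v4 : B * N / h (s + 1 + J) ≤ 1 / 2 := by
    rw [div_le_iff₀ k1]
    linarith
  have v5 : 1 / 2 ≤ aφ := by
    have := (abs_le.1 v2).1
    linarith
  have v6 : 0 < aφ := by linarith
  obtain ⟨a, ha⟩ : ∃ a, a = aJ / aφ := ⟨_, rfl⟩
  have ha1 : |a| ≤ 2 * (KB * L0) := by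
    rw [ha, abs_div, abs_of_pos v6, div_le_iff₀ v6]
    have e1 : |aJ| ≤ KB * L0 := u4.trans (div_le_self (by positivity) g2')
    have e2 : 2 * (KB * L0) * (1 / 2) ≤ 2 * (KB * L0) * aφ :=
      mul_le_mul_of_nonneg_left v5 (by positivity)
    linarith
  have ha2 : |aJ - a| ≤ 2 * (KB * L0) * (B * N) / (h (s + 1) * h (s + 1 + J)) := by
    have e1 : aJ - a = aJ * (aφ - 1) / aφ := by
      rw [ha]; field_simp
    rw [e1, abs_div, abs_mul, abs_of_pos v6, div_le_iff₀ v6]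
    have e2 : |aJ| * |aφ - 1| ≤ KB * L0 / h (s + 1) * (B * N / h (s + 1 + J)) :=
      mul_le_mul u4 v2 (abs_nonneg _) (by positivity)
    have e3 : 2 * (KB * L0) * (B * N) / (h (s + 1) * h (s + 1 + J)) * (1 / 2) ≤
        2 * (KB * L0) * (B * N) / (h (s + 1) * h (s + 1 + J)) * aφ :=
      mul_le_mul_of_nonneg_left v5 (by positivity)
    have e4 : KB * L0 / h (s + 1) * (B * N / h (s + 1 + J)) =
        2 * (KB * L0) * (B * N) / (h (s + 1) * h (s + 1 + J)) * (1 / 2) := by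
      field_simp
    linarith
  obtain ⟨GJ, hGJ⟩ : ∃ GJ, GJ = dTn μ (TTn μ f (s + 1))
    (fun x => evo μ f o (s + 1) x ^ 2 * TTn μ f (s + 1) x) J := ⟨_, rfl⟩
  obtain ⟨gφ, hgφ⟩ : ∃ gφ, gφ = dTn μ f (fun x => o x * f x) (s + 1 + J) := ⟨_, rfl⟩
  have w0 := TF.sub _ _ _ _ _ _ _ _ u1 (hsm _ _ _ _ _ a v1)
  have e0 : aJ - a * aφ = 0 := by rw [ha]; field_simp; ring
  rw [e0, ← hGJ, ← hgφ] at w0
  obtain ⟨lw, hlw⟩ : ∃ lw, lw = lJ + |a| * lφ := ⟨_, rfl⟩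
  rw [← hlw] at w0
  have hlφ := TF.nn _ _ _ _ _ v1
  have hlw0 : 0 ≤ lw := by rw [hlw]; positivity
  have hlw1 : lw ≤ K2 * ((1 / 4) ^ J + 1 / h (s + 1 + J)) := by
    have e1 : lφ ≤ (C' + B * N) * ((1 / 4) ^ J + 1 / h (s + 1 + J)) := by
      have e2 : (1 / 4 : ℝ) ^ (s + 1 + J) * C' ≤ C' * (1 / 4) ^ J := by
        rw [pow_add, mul_comm]
        refine mul_le_mul_of_nonneg_left ?_ hC'
        exact mul_le_of_le_one_left (hp0 J) (hp1 _)
      have e3 : B * N / h (s + 1 + J) = B * N * (1 / h (s + 1 + J)) := by ring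
      have e4 : (C' + B * N) * ((1 / 4) ^ J + 1 / h (s + 1 + J)) = C' * (1 / 4) ^ J +
          B * N * (1 / h (s + 1 + J)) + (B * N * (1 / 4) ^ J + C' * (1 / h (s + 1 + J))) := by ring
      have e5 : 0 ≤ B * N * (1 / 4) ^ J + C' * (1 / h (s + 1 + J)) := by
        have := hp0 J
        positivity
      linarith
    have e2 : |a| * lφ ≤ 2 * (KB * L0) * ((C' + B * N) * ((1 / 4) ^ J + 1 / h (s + 1 + J))) :=
      mul_le_mul ha1 e1 hlφ (by positivity)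
    have e3 : K2 * ((1 / 4) ^ J + 1 / h (s + 1 + J)) = K1 * ((1 / 4) ^ J + 1 / h (s + 1 + J)) +
        2 * (KB * L0) * ((C' + B * N) * ((1 / 4) ^ J + 1 / h (s + 1 + J))) := by
      rw [hK2]; ring
    rw [hlw, e3]
    linarith
  -- the last steps
  have tf2 := TP_shift hq0 hC hCq tf (s := s + 1 + J) (J' := r) (by omega)
  have tf2' : TP μ P c C hq (R + 2 + 2) (TTn μ f (s + 1 + J)) r (fun i => h (s + 1 + J + i))
      (fun i => ρ (s + 1 + J + i)) := ⟨tf2.p, tf2.lo, tf2.t, by linarith [tf2.r], tf2.r0⟩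
  obtain ⟨a', l', x1, x2, x3⟩ := c4 hq (TTn μ f (s + 1 + J))
    (fun x => GJ x - a * gφ x) r _ _ lw (q3.trans hhq) tf2' w0 r le_rfl
  rw [← TTn_add] at x1
  beta_reduce at x1 x2 x3
  rw [add_zero] at x2 x3
  rw [hsum] at x1 x3
  obtain ⟨m1, m2, m3, m4⟩ := hlo Jt le_rfl
  have x4 := TF.close _ _ _ _ _ _ (tf.p Jt le_rfl) x1
    ((a5.trans q1).trans (hhq.trans (tf.lo Jt le_rfl)))
  -- the fields
  have cf := hf.cont
  have cof : Continuous fun x => o x * f x := ho.mul cf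
  have cφ : Continuous (evo μ f o (s + 1)) := cont_evo hf ho _
  have cG0 : Continuous fun x => evo μ f o (s + 1) x ^ 2 * TTn μ f (s + 1) x :=
    (cφ.pow 2).mul (hf.TTn (μ := μ) (s + 1)).cont
  have cGJ : Continuous GJ := by
    rw [hGJ]; exact cont_dTn (hf.TTn (μ := μ) (s + 1)).cont cG0 J
  have cgφ : Continuous gφ := by rw [hgφ]; exact cont_dTn cf cof _
  have hfi := (hf.TTn (μ := μ) (s + 1 + J))
  have z1 : dTn μ (TTn μ f (s + 1 + J)) (fun x => GJ x - a * gφ x) r =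
      fun x => dTn μ (TTn μ f (s + 1)) (fun x => evo μ f o (s + 1) x ^ 2 * TTn μ f (s + 1) x)
        (J + r) x - a * dTn μ f (fun x => o x * f x) Jt x := by
    rw [dTn_sub (g' := fun x => a * gφ x) hfi.cont cGJ (continuous_const.mul cgφ), dTn_smul]
    have y1 : dTn μ (TTn μ f (s + 1 + J)) gφ r = dTn μ f (fun x => o x * f x) Jt := by
      rw [hgφ, ← dTn_add, hsum]
    have y2 : dTn μ (TTn μ f (s + 1 + J)) GJ r = dTn μ (TTn μ f (s + 1))
        (fun x => evo μ f o (s + 1) x ^ 2 * TTn μ f (s + 1) x) (J + r) := by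
      rw [hGJ, dTn_add, ← TTn_add]
    rw [y1, y2]
  have hTJ : TTn μ (TTn μ f (s + 1)) (J + r) = TTn μ f Jt := by
    rw [← TTn_add, ← add_assoc, hsum]
  refine ⟨a, aJ, lJ, u1, u4.trans ?_, ha2.trans ?_, u5.trans ?_, fun x => ?_⟩
  · exact div_le_div_of_nonneg_right (by rw [hK]; linarith) g1'.le
  · exact div_le_div_of_nonneg_right (by rw [hK]; linarith) (by positivity)
  · refine mul_le_mul_of_nonneg_right (by rw [hK]; linarith) ?_
    have := hp0 J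
    linarith
  · have hfx := (hf.TTn (μ := μ) Jt).pos x
    have hf1 := (hf.TTn (μ := μ) Jt).pos 1
    have y1 := x4 x
    have y2 : (evo μ (TTn μ f (s + 1)) (fun x => evo μ f o (s + 1) x ^ 2) (J + r) x -
            a * evo μ f o Jt x) * (TTn μ f Jt x / TTn μ f Jt 1) =
        dTn μ (TTn μ f (s + 1 + J)) (fun x => GJ x - a * gφ x) r x / TTn μ f Jt 1 -
        dTn μ (TTn μ f (s + 1 + J)) (fun x => GJ x - a * gφ x) r 1 * TTn μ f Jt x /
          TTn μ f Jt 1 ^ 2 := by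
      rw [z1]
      have y3 : evo μ (TTn μ f (s + 1)) (fun x => evo μ f o (s + 1) x ^ 2) (J + r) x =
          dTn μ (TTn μ f (s + 1)) (fun x => evo μ f o (s + 1) x ^ 2 * TTn μ f (s + 1) x)
            (J + r) x / TTn μ f Jt x -
          dTn μ (TTn μ f (s + 1)) (fun x => evo μ f o (s + 1) x ^ 2 * TTn μ f (s + 1) x)
            (J + r) 1 / TTn μ f Jt 1 := by
        unfold Pool.Agent.N681.MK.evo fld
        rw [hTJ]
      have y4 : evo μ f o Jt x = dTn μ f (fun x => o x * f x) Jt x / TTn μ f Jt x -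
          dTn μ f (fun x => o x * f x) Jt 1 / TTn μ f Jt 1 := rfl
      rw [y3, y4]
      field_simp
      ring
    rw [y2]
    refine y1.trans ?_
    have f1 : |a'| + l' ≤ (2 * KC + 1) * lw * (1 / h (s + 1 + J) + (1 / 4) ^ r) := by
      have e1 : KC * lw / h (s + 1 + J) = KC * lw * (1 / h (s + 1 + J)) := by ring
      have e2 : KC * lw / (h (s + 1 + J) * h Jt) ≤ KC * lw * (1 / h (s + 1 + J)) := by
        rw [mul_one_div]
        exact div_le_div_of_nonneg_left (by positivity) k1 (le_mul_of_one_le_right k1.le m2)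
      have e3 : (2 * KC + 1) * lw * (1 / h (s + 1 + J) + (1 / 4) ^ r) =
          2 * (KC * lw * (1 / h (s + 1 + J))) + (1 / 4) ^ r * lw +
          (lw * (1 / h (s + 1 + J)) + 2 * KC * lw * (1 / 4) ^ r) := by ring
      have e4 : 0 ≤ lw * (1 / h (s + 1 + J)) + 2 * KC * lw * (1 / 4) ^ r := by
        have := hp0 r
        positivity
      linarith
    have f2 : 0 ≤ h Jt ^ Dm := by positivity
    have f3 : 0 ≤ 1 / h (s + 1 + J) + (1 / 4 : ℝ) ^ r := by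
      have := hp0 r
      linarith
    have f4 : 0 ≤ (1 / 4 : ℝ) ^ J + 1 / h (s + 1 + J) := by
      have := hp0 J
      linarith
    calc C' * h Jt ^ Dm * (|a'| + l') ≤ C' * h Jt ^ Dm *
          ((2 * KC + 1) * lw * (1 / h (s + 1 + J) + (1 / 4) ^ r)) :=
          mul_le_mul_of_nonneg_left f1 (by positivity)
      _ ≤ C' * h Jt ^ Dm * ((2 * KC + 1) * (K2 * ((1 / 4) ^ J + 1 / h (s + 1 + J))) *
          (1 / h (s + 1 + J) + (1 / 4) ^ r)) := by gcongr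
      _ = C' * ((2 * KC + 1) * K2) * h Jt ^ Dm * (((1 / 4) ^ J + 1 / h (s + 1 + J)) *
          (1 / h (s + 1 + J) + (1 / 4) ^ r)) := by ring
      _ ≤ K * h Jt ^ Dm * (((1 / 4) ^ J + 1 / h (s + 1 + J)) *
          (1 / h (s + 1 + J) + (1 / 4) ^ r)) := by
          refine mul_le_mul_of_nonneg_right (mul_le_mul_of_nonneg_right ?_ f2)
            (mul_nonneg f4 f3)
          rw [hK]
          linarith

end

end Pool.Agent.N984.OPE
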