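import Mathlib
import Pool.Agent.N984.OPE.Zero

/-!
# The square of the renormalised field of the limit theory
-/

open MeasureTheory Pool.Agent.N991.MK Pool.Agent.N989.MK Pool.Agent.N681.MK Filter
open scoped Topology

namespace Pool.Agent.N984.OPE

set_option linter.unusedSectionVars false

noncomputable section

variable {G : Type*} [Group G] [TopologicalSpace G] [IsTopologicalGroup G] [CompactSpace G]
  [MeasurableSpace G] [BorelSpace G] [SecondCountableTopology G]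
  {μ : Measure G} [IsProbabilityMeasure μ] [μ.IsHaarMeasure] [μ.IsMulRightInvariant]
  [μ.IsInvInvariant]

variable {P : (G → ℝ) → ℝ → ℝ → Prop} {T : (G → ℝ) → (G → ℝ) → ℝ → ℝ → ℝ → Prop}
  {o : G → ℝ} {κ h1 C' : ℝ} {Dm : ℕ} {c C R : ℝ}

lemma ut_pt {a : ℕ → G → ℝ} {A : G → ℝ} (h : UT a A) (x : G) :
    Tendsto (fun i => a i x) atTop (𝓝 (A x)) := by
  rw [Metric.tendsto_atTop']
  intro ε hε
  obtain ⟨n, hn⟩ := eventually_atTop.1 (h ε hε)
  exact ⟨n, fun i hi => hn i hi.le x⟩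

/-- the ratios converge -/
lemma ratio_conv {w : ℕ → G → ℝ} (hw : ∀ i, Adm (w i)) {A : G → ℝ} (hA : Adm A)
    (h : UT (fun i => nrm μ (w i)) A) (x : G) :
    Tendsto (fun i => w i x / w i 1) atTop (𝓝 (A x / A 1)) := by
  refine ((ut_pt h x).div (ut_pt h 1) (hA.pos 1).ne').congr fun i => ?_
  have hI := (hw i).ipos (μ := μ)
  have h1 := (hw i).pos 1
  show nrm μ (w i) x / nrm μ (w i) 1 = _
  unfold nrm
  field_simp

/-- **the square of the renormalised field of the limit theory** -/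
theorem sq_limit (TF : TanFlow μ P T o 1 h1 C' Dm) {h2 Cs : ℝ} (hSq : SqStep μ P T h2 Cs)
    (hCs : 0 ≤ Cs)
    (hsm : ∀ f g h a e (s : ℝ), T f g h a e → T f (fun x => s * g x) h (s * a) (|s| * e))
    (hc : 0 < c) (hC : 0 ≤ C) (hR : 0 ≤ R) (ho : Continuous o)
    {f : ℕ → G → ℝ} (hf : ∀ i, Adm (f i)) {l : ℕ → ℕ} (hl : Tendsto l atTop atTop)
    (hex : ∀ hq : ℝ, ∃ k0 : ℕ, ∀ k : ℕ, k0 ≤ k → ∃ Hu : ℝ, ∀ᶠ i in atTop, ∃ h ρ,
      TP μ P c C hq R (f i) (l i - k) h ρ ∧ h (l i - k) ≤ Hu)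
    {ι : Type*} {X : ι → G} {q : ι → ℝ} (hq0 : ∀ y, 0 ≤ q y)
    (hnear : ∀ f g h ρ a e, P f h ρ → T f g h a e → ∀ y, |fld f g (X y) + a / 2 * q y| ≤
      e * q y ^ 2)
    {F Φ : ℤ → G → ℝ} (hF : ∀ k, Adm (F k)) (hΦc : ∀ k, Continuous (Φ k))
    (hconv : ∀ k : ℤ, UT (fun i x => nrm μ (TTn μ (f i) ((l i : ℤ) + k).toNat) x) (F k))
    (hΦ : ∀ k : ℤ, UT (fun i => evo μ (f i) o ((l i : ℤ) + k).toNat) (Φ k)) :
    ∃ (k1 : ℕ) (K : ℝ), 0 ≤ K ∧ ∀ k : ℕ, k1 ≤ k → ∃ Kk : ℝ, 0 ≤ Kk ∧ ∀ J : ℕ,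
      ∀ᶠ m : ℕ in atTop, ∃ a : ℝ,
      (∀ y, |evo μ (F (-m)) (fun x => Φ (-m) x ^ 2) J (X y) + a / 2 * q y| ≤
        K * ((1 / 4) ^ J + 1 / m) * q y ^ 2 + K / m ^ 2 * q y) ∧
      ∀ x, |(evo μ (F (-m)) (fun x => Φ (-m) x ^ 2) (m - k) x - a * Φ (-k) x) *
        (F (-k) x / F (-k) 1)| ≤ Kk * ((1 / 4) ^ J + 1 / m) * (1 / m) := by
  obtain ⟨H0, K, b1, b2, b3⟩ := sq_traj (R := R) TF hSq hCs hsm hc hC hR ho
  obtain ⟨B1, hB1⟩ : ∃ B1, B1 = 4 / 3 * C * (R + 2) := ⟨_, rfl⟩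
  have hB10 : 0 ≤ B1 := by rw [hB1]; positivity
  obtain ⟨hq, hhq⟩ : ∃ hq, hq = H0 + C + B1 + 2 * (C + 4 / 3 * C ^ 2) / c := ⟨_, rfl⟩
  have z1 : 0 ≤ 2 * (C + 4 / 3 * C ^ 2) / c := by positivity
  obtain ⟨k1, hk1⟩ := hex hq
  have hcc : 0 < c / 4 := by positivity
  obtain ⟨K', hK'⟩ : ∃ K', K' = K * (1 + 4 / c) + K * (4 / c) * (4 / c) := ⟨_, rfl⟩
  have hK'0 : 0 ≤ K' := by rw [hK']; positivity
  refine ⟨k1, K', hK'0, fun k hk => ?_⟩
  obtain ⟨Hu, hHu⟩ := hk1 k hk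
  obtain ⟨Kk, hKk⟩ : ∃ Kk, Kk = K * |Hu| ^ Dm * ((1 + 4 / c) * (4 / c + 1)) := ⟨_, rfl⟩
  refine ⟨Kk, by rw [hKk]; positivity, fun J => ?_⟩
  have hpow : Tendsto (fun m : ℕ => (m : ℝ) * (1 / 4) ^ (m - (k + J))) atTop (𝓝 0) := by
    have h1 : Tendsto (fun m : ℕ => (m : ℝ) * (1 / 4) ^ m) atTop (𝓝 0) :=
      tendsto_self_mul_const_pow_of_lt_one (by norm_num) (by norm_num)
    have h2 : Tendsto (fun m : ℕ => 4 ^ (k + J) * ((m : ℝ) * (1 / 4) ^ m)) atTop
        (𝓝 (4 ^ (k + J) * 0)) := h1.const_mul _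
    rw [mul_zero] at h2
    refine h2.congr' ?_
    filter_upwards [eventually_ge_atTop (k + J)] with m hm
    obtain ⟨d, rfl⟩ := Nat.exists_eq_add_of_le hm
    rw [Nat.add_sub_cancel_left, pow_add]
    have : (4 : ℝ) ^ (k + J) * (1 / 4) ^ (k + J) = 1 := by
      rw [← mul_pow]; norm_num
    linear_combination (((k + J + d : ℕ) : ℝ) * (1 / 4) ^ d) * this
  filter_upwards [hpow.eventually (gt_mem_nhds one_pos), eventually_ge_atTop (2 * (k + J) + 1)]
    with m hm1 hm2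
  have hmp : (0 : ℝ) < m := by exact_mod_cast (by omega : 0 < m)
  have hr4 : (1 / 4 : ℝ) ^ (m - (k + J)) ≤ 1 / m := by
    rw [le_div_iff₀ hmp]
    linarith
  -- the data on the lattice
  have hdata : ∀ᶠ i in atTop, ∃ a : ℝ, |a| ≤ K' ∧
      (∀ y, |evo μ (TTn μ (f i) (l i - m)) (fun x => evo μ (f i) o (l i - m) x ^ 2) J (X y) +
        a / 2 * q y| ≤ K' * ((1 / 4) ^ J + 1 / m) * q y ^ 2 + K' / m ^ 2 * q y) ∧
      ∀ x, |(evo μ (TTn μ (f i) (l i - m)) (fun x => evo μ (f i) o (l i - m) x ^ 2) (m - k) x -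
        a * evo μ (f i) o (l i - k) x) *
        (TTn μ (f i) (l i - k) x / TTn μ (f i) (l i - k) 1)| ≤
          Kk * ((1 / 4) ^ J + 1 / m) * (1 / m) := by
    filter_upwards [hHu, hl.eventually (eventually_ge_atTop (m + 1))] with i g1 g2
    obtain ⟨h, ρ, tp, hh⟩ := g1
    obtain ⟨s, hs⟩ : ∃ s, s = l i - m - 1 := ⟨_, rfl⟩
    have e1 : l i - m = s + 1 := by omega
    have e2 : m - k = J + (m - (k + J)) := by omega
    have e3 : s + 1 + J + (m - (k + J)) = l i - k := by omega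
    obtain ⟨a, aJ, lJ, u1, u2, u3, u4, u5⟩ := b3 hq (f i) (l i - k) h ρ (by linarith) (hf i) tp s J
      (m - (k + J)) e3
    rw [e1, e2]
    have hqp : 0 < hq := by linarith
    have hlow : ∀ j d, j + d = l i - k → c / 2 * d ≤ h j := by
      intro j d hjd
      have g3 := tp.t.crude hqp hC (by linarith) (by
        have q5 : 2 * (C + 4 / 3 * C ^ 2) / c ≤ hq := by linarith
        rw [div_le_iff₀ hc] at q5
        linarith) tp.r0 tp.r j d hjd.le
      have g4 := tp.lo (j + d) hjd.le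
      rw [← hB1] at g3
      linarith
    have l1 : c / 4 * m ≤ h (s + 1) := by
      have g3 := hlow (s + 1) (m - k) (by omega)
      have g4 : (m : ℝ) / 2 ≤ ((m - k : ℕ) : ℝ) := by
        rw [Nat.cast_sub (by omega)]
        have : (2 : ℝ) * k ≤ m := by exact_mod_cast (by omega : 2 * k ≤ m)
        linarith
      have g5 := mul_le_mul_of_nonneg_left g4 (by positivity : 0 ≤ c / 2)
      linarith
    have l2 : c / 4 * m ≤ h (s + 1 + J) := by
      have g3 := hlow (s + 1 + J) (m - (k + J)) e3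
      have g4 : (m : ℝ) / 2 ≤ ((m - (k + J) : ℕ) : ℝ) := by
        rw [Nat.cast_sub (by omega)]
        have : (2 : ℝ) * ((k + J : ℕ) : ℝ) ≤ m := by exact_mod_cast (by omega : 2 * (k + J) ≤ m)
        linarith
      have g5 := mul_le_mul_of_nonneg_left g4 (by positivity : 0 ≤ c / 2)
      linarith
    have hcm : 0 < c / 4 * m := by positivity
    have i1 : 1 / h (s + 1 + J) ≤ 4 / c * (1 / m) := by
      have := one_div_le_one_div_of_le hcm l2
      refine this.trans (le_of_eq ?_)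
      field_simp
    have i2 : 1 / h (s + 1) ≤ 4 / c * (1 / m) := by
      have := one_div_le_one_div_of_le hcm l1
      refine this.trans (le_of_eq ?_)
      field_simp
    have hm1' : 1 / (m : ℝ) ≤ 1 := by
      rw [div_le_one hmp]
      exact_mod_cast (by omega : 1 ≤ m)
    have hmi : 0 ≤ 1 / (m : ℝ) := by positivity
    have hp : (0 : ℝ) ≤ (1 / 4) ^ J := by positivity
    have hs0 : 0 < h (s + 1) := by linarith
    have hs1 : 0 < h (s + 1 + J) := by linarith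
    have v3 : |aJ - a| ≤ K * (4 / c) * (4 / c) / m ^ 2 := by
      refine u3.trans ?_
      have t1 : K / (h (s + 1) * h (s + 1 + J)) = K * ((1 / h (s + 1)) * (1 / h (s + 1 + J))) := by
        field_simp
      rw [t1]
      have t2 : (1 / h (s + 1)) * (1 / h (s + 1 + J)) ≤ (4 / c * (1 / m)) * (4 / c * (1 / m)) :=
        mul_le_mul i2 i1 (by positivity) (by positivity)
      refine (mul_le_mul_of_nonneg_left t2 b2).trans (le_of_eq ?_)
      field_simp
    have v2 : |aJ| ≤ K * (4 / c) := by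
      refine u2.trans ?_
      have t1 : K / h (s + 1) = K * (1 / h (s + 1)) := by ring
      rw [t1]
      refine mul_le_mul_of_nonneg_left (i2.trans ?_) b2
      exact mul_le_of_le_one_right (by positivity) hm1'
    have hsum : (1 / 4 : ℝ) ^ J + 1 / h (s + 1 + J) ≤ (1 + 4 / c) * ((1 / 4) ^ J + 1 / m) := by
      have t1 : (1 + 4 / c) * ((1 / 4 : ℝ) ^ J + 1 / m) = (1 / 4) ^ J + 4 / c * (1 / m) +
          (4 / c * (1 / 4) ^ J + 1 / m) := by ring
      have t2 : 0 ≤ 4 / c * (1 / 4 : ℝ) ^ J + 1 / m := by positivity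
      linarith
    have v4 : lJ ≤ K * (1 + 4 / c) * ((1 / 4) ^ J + 1 / m) := by
      refine u4.trans ?_
      rw [mul_assoc]
      exact mul_le_mul_of_nonneg_left hsum b2
    have hKq : K * (4 / c) * (4 / c) ≤ K' := by
      rw [hK']
      have : 0 ≤ K * (1 + 4 / c) := by positivity
      linarith
    refine ⟨a, ?_, fun y => ?_, fun x => ?_⟩
    · have t1 : |a| ≤ |aJ| + |aJ - a| := by
        have := abs_sub_abs_le_abs_sub a aJ
        rw [abs_sub_comm] at this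
        linarith
      have t2 : K * (4 / c) * (4 / c) / (m : ℝ) ^ 2 ≤ K * (4 / c) * (4 / c) := by
        refine div_le_self (by positivity) ?_
        have : (1 : ℝ) ≤ m := by exact_mod_cast (by omega : 1 ≤ m)
        nlinarith
      rw [hK']
      have t3 : K * (4 / c) ≤ K * (1 + 4 / c) := mul_le_mul_of_nonneg_left (by linarith) b2
      linarith
    · have t1 := hnear _ _ _ _ _ _ (tp.p (s + 1 + J) (by omega)) u1 y
      have t2 : fld (TTn μ (f i) (s + 1 + J)) (dTn μ (TTn μ (f i) (s + 1))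
          (fun x => evo μ (f i) o (s + 1) x ^ 2 * TTn μ (f i) (s + 1) x) J) (X y) =
          evo μ (TTn μ (f i) (s + 1)) (fun x => evo μ (f i) o (s + 1) x ^ 2) J (X y) := by
        unfold Pool.Agent.N681.MK.evo
        rw [TTn_add]
      rw [t2] at t1
      obtain ⟨E, hE⟩ : ∃ E, E = evo μ (TTn μ (f i) (s + 1))
        (fun x => evo μ (f i) o (s + 1) x ^ 2) J (X y) := ⟨_, rfl⟩
      rw [← hE] at t1 ⊢
      have t3 : E + a / 2 * q y = (E + aJ / 2 * q y) - (aJ - a) / 2 * q y := by ring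
      rw [t3]
      refine (abs_sub _ _).trans ?_
      have t4 : |(aJ - a) / 2 * q y| ≤ K' / m ^ 2 * q y := by
        rw [abs_mul, abs_div, abs_two, abs_of_nonneg (hq0 y)]
        refine mul_le_mul_of_nonneg_right ?_ (hq0 y)
        have t5 : K * (4 / c) * (4 / c) / (m : ℝ) ^ 2 ≤ K' / m ^ 2 :=
          div_le_div_of_nonneg_right hKq (by positivity)
        have t6 := abs_nonneg (aJ - a)
        linarith
      have t5 : lJ * q y ^ 2 ≤ K' * ((1 / 4) ^ J + 1 / m) * q y ^ 2 := by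
        refine mul_le_mul_of_nonneg_right (v4.trans ?_) (sq_nonneg _)
        refine mul_le_mul_of_nonneg_right ?_ (by positivity)
        rw [hK']
        have : 0 ≤ K * (4 / c) * (4 / c) := by positivity
        linarith
      linarith
    · refine (u5 x).trans ?_
      have hJt : 0 < h (l i - k) := hqp.trans_le (tp.lo _ le_rfl)
      have t1 : h (l i - k) ^ Dm ≤ |Hu| ^ Dm :=
        pow_le_pow_left₀ hJt.le (hh.trans (le_abs_self _)) _
      have t2 : 1 / h (s + 1 + J) + (1 / 4 : ℝ) ^ (m - (k + J)) ≤ (4 / c + 1) * (1 / m) := by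
        have : (4 / c + 1) * (1 / (m : ℝ)) = 4 / c * (1 / m) + 1 / m := by ring
        linarith
      have t3 : 0 ≤ 1 / h (s + 1 + J) + (1 / 4 : ℝ) ^ (m - (k + J)) := by positivity
      calc K * h (l i - k) ^ Dm * (((1 / 4) ^ J + 1 / h (s + 1 + J)) *
            (1 / h (s + 1 + J) + (1 / 4) ^ (m - (k + J)))) ≤
          K * |Hu| ^ Dm * (((1 + 4 / c) * ((1 / 4) ^ J + 1 / m)) * ((4 / c + 1) * (1 / m))) := by
            gcongr
        _ = _ := by rw [hKk]; ring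
  -- passage to the limit
  obtain ⟨N1, hN1⟩ := eventually_atTop.1 hdata
  choose! a d1 d2 d3 using hN1
  have hmem : ∀ i : ℕ, a (N1 + i) ∈ Set.Icc (-K') K' := fun i =>
    abs_le.1 (d1 (N1 + i) (by omega))
  obtain ⟨a', ha', φ, hφ, hlim⟩ := isCompact_Icc.tendsto_subseq hmem
  have hsub : Tendsto (fun i => N1 + φ i) atTop atTop :=
    tendsto_atTop_mono (fun i => Nat.le_add_left _ _) hφ.tendsto_atTop
  have em : ∀ i (k : ℕ), ((l i : ℤ) + -(k : ℤ)).toNat = l i - k := fun i k => by omega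
  have cv1 : ∀ k : ℕ, UT (fun i => nrm μ (TTn μ (f i) (l i - k))) (F (-k)) := by
    intro k
    have h3 := hconv (-k)
    simp only [em] at h3
    exact h3
  have cv2 : ∀ k : ℕ, UT (fun i => evo μ (f i) o (l i - k)) (Φ (-k)) := by
    intro k
    have h3 := hΦ (-k)
    simp only [em] at h3
    exact h3
  have cE : ∀ j : ℕ, UT (fun i => evo μ (TTn μ (f i) (l i - m))
      (fun x => evo μ (f i) o (l i - m) x ^ 2) j) (evo μ (F (-m)) (fun x => Φ (-m) x ^ 2) j) := by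
    intro j
    have h3 : UT (fun i x => evo μ (f i) o (l i - m) x ^ 2) (fun x => Φ (-m) x ^ 2) := by
      have h4 := UT.mul (hΦc (-m)) (hΦc (-m)) (cv2 m) (cv2 m)
      simp only [← sq] at h4
      exact h4
    have h5 := UT.evo (μ := μ) (fun i => ((hf i).TTn (μ := μ) (l i - m)).nrm (μ := μ))
      (fun i => (cont_evo (hf i) ho (l i - m)).pow 2) (hF (-m)) ((hΦc (-m)).pow 2) (cv1 m) h3 j
    have h6 : ∀ i, evo μ (nrm μ (TTn μ (f i) (l i - m)))
        (fun x => evo μ (f i) o (l i - m) x ^ 2) j = evo μ (TTn μ (f i) (l i - m))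
        (fun x => evo μ (f i) o (l i - m) x ^ 2) j := fun i =>
      evo_nrm ((hf i).TTn (μ := μ) (l i - m)) _ j
    intro ε hε
    filter_upwards [h5 ε hε] with i hi x
    rw [← h6 i]
    exact hi x
  refine ⟨a', fun y => ?_, fun x => ?_⟩
  · have t1 := ((ut_pt (cE J) (X y)).comp hsub).add ((hlim.div_const 2).mul_const (q y))
    exact le_of_tendsto t1.abs (Eventually.of_forall fun i => d2 (N1 + φ i) (by omega) y)
  · have t1 := ((ut_pt (cE (m - k)) x).comp hsub).sub (hlim.mul ((ut_pt (cv2 k) x).comp hsub))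
    have t2 := (ratio_conv (μ := μ) (fun i => (hf i).TTn (μ := μ) (l i - k)) (hF (-k)) (cv1 k)
      x).comp hsub
    exact le_of_tendsto (t1.mul t2).abs
      (Eventually.of_forall fun i => d3 (N1 + φ i) (by omega) x)

end

end Pool.Agent.N984.OPE
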