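import Mathlib
import Pool.Agent.N681.MK.Tan5
import Pool.Agent.N989.MK.Clus

/-!
# Linearity and boundedness of the evolution of fields
-/

open MeasureTheory Pool.Agent.N991.MK Pool.Agent.N989.MK Pool.Agent.N681.MK Filter
open scoped Topology

namespace Pool.Agent.N984.OPE

set_option linter.unusedSectionVars false

noncomputable section

variable {G : Type*} [Group G] [TopologicalSpace G] [IsTopologicalGroup G] [CompactSpace G]
  [MeasurableSpace G] [BorelSpace G] [SecondCountableTopology G]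
  {μ : Measure G} [IsProbabilityMeasure μ] [μ.IsHaarMeasure] [μ.IsMulRightInvariant]
  [μ.IsInvInvariant]

lemma evo_sub {f u v : G → ℝ} (hf : Adm f) (hu : Continuous u) (hv : Continuous v) (n : ℕ) :
    evo μ f (fun x => u x - v x) n = fun x => evo μ f u n x - evo μ f v n x := by
  unfold Pool.Agent.N681.MK.evo
  have e : (fun x => (u x - v x) * f x) = fun x => u x * f x - v x * f x := by
    funext x
    ring
  rw [e, dTn_sub (g := fun x => u x * f x) (g' := fun x => v x * f x) hf.cont (hu.mul hf.cont)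
    (hv.mul hf.cont)]
  funext x
  unfold fld
  ring

lemma evo_const {f : G → ℝ} (hf : Adm f) (a : ℝ) (n : ℕ) : evo μ f (fun _ => a) n = fun _ => 0 := by
  have h1 : evo μ f (fun _ : G => (1 : ℝ)) n = fun _ => 0 := by
    unfold Pool.Agent.N681.MK.evo
    have e : (fun x => (1 : ℝ) * f x) = fun x => 1 * f x := rfl
    rw [dTn_self]
    funext x
    have h2 := ((hf.TTn (μ := μ) n).pos x).ne'
    have h3 := ((hf.TTn (μ := μ) n).pos 1).ne'
    unfold fld
    field_simp
    ring
  have h2 := evo_smul (μ := μ) f (fun _ => (1 : ℝ)) a n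
  rw [h1] at h2
  simpa using h2

/-- the evolution of the square of the centred field -/
lemma evo_quad {f φ : G → ℝ} (hf : Adm f) (hφ : Continuous φ) (e : ℝ) (n : ℕ) (x : G) :
    evo μ f (fun y => (φ y - e) ^ 2) n x =
      evo μ f (fun y => φ y ^ 2) n x - 2 * e * evo μ f φ n x := by
  have e1 : (fun y => (φ y - e) ^ 2) = fun y => (φ y ^ 2 - 2 * e * φ y) - (-e ^ 2) := by
    funext y
    ring
  rw [e1, evo_sub (u := fun y => φ y ^ 2 - 2 * e * φ y) (v := fun _ => -e ^ 2) hf
    ((hφ.pow 2).sub (continuous_const.mul hφ)) continuous_const,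
    evo_sub (u := fun y => φ y ^ 2) (v := fun y => 2 * e * φ y) hf (hφ.pow 2)
      (continuous_const.mul hφ), evo_const hf, evo_smul]
  ring

lemma dTT_bd {f g : G → ℝ} (hf : Adm f) (hg : Continuous g) {M : ℝ}
    (h : ∀ x, |g x| ≤ M * f x) (x : G) : |dTT μ f g x| ≤ 16 * M * TT μ f x := by
  have step : ∀ {a b : G → ℝ} {M : ℝ}, Continuous a → (∀ x, 0 < a x) → Continuous b →
      (∀ x, |b x| ≤ M * a x) → ∀ x, |dcv μ a b x| ≤ 2 * M * conv μ a a x := by
    intro a b M ca pa cb hb x
    have hA : ∀ x, |a x| ≤ a x := fun x => (abs_of_pos (pa x)).le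
    have cM : Continuous fun x => M * a x := continuous_const.mul ca
    have h1 := Pool.Agent.N989.MK.conv_le (μ := μ) ca cb ca cM hA hb x
    have h2 := Pool.Agent.N989.MK.conv_le (μ := μ) cb ca cM ca hb hA x
    have e1 : conv μ a (fun x => M * a x) x = M * conv μ a a x := by
      unfold Pool.Agent.N991.MK.conv
      rw [← integral_const_mul]
      refine integral_congr_ae (Eventually.of_forall fun y => ?_)
      beta_reduce
      ring
    have e2 : conv μ (fun x => M * a x) a x = M * conv μ a a x := by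
      unfold Pool.Agent.N991.MK.conv
      rw [← integral_const_mul]
      refine integral_congr_ae (Eventually.of_forall fun y => ?_)
      beta_reduce
      ring
    rw [e1] at h1
    rw [e2] at h2
    unfold dcv
    refine (abs_add_le _ _).trans ?_
    linarith
  have h1 := step hf.cont hf.pos hg h
  have cd : Continuous (dcv μ f g) := (cont_conv hf.cont hg).add (cont_conv hg hf.cont)
  have h2 := step (hf.conv (μ := μ)).cont (hf.conv (μ := μ)).pos cd h1 x
  have hH : 0 < H4 μ f x := (hf.H4 (μ := μ)).pos x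
  have e1 : conv μ (conv μ f f) (conv μ f f) x = H4 μ f x := rfl
  have e2 : dcv μ (conv μ f f) (dcv μ f g) x = dH4 μ f g x := rfl
  rw [e1, e2] at h2
  show |4 * H4 μ f x ^ 3 * dH4 μ f g x| ≤ 16 * M * H4 μ f x ^ 4
  rw [abs_mul, abs_mul, abs_pow, abs_of_pos hH, abs_of_pos (by norm_num : (0 : ℝ) < 4)]
  calc 4 * H4 μ f x ^ 3 * |dH4 μ f g x| ≤ 4 * H4 μ f x ^ 3 * (2 * (2 * M) * H4 μ f x) :=
        mul_le_mul_of_nonneg_left h2 (by positivity)
    _ = _ := by ring

lemma dTn_bd {f g : G → ℝ} (hf : Adm f) (hg : Continuous g) {M : ℝ}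
    (h : ∀ x, |g x| ≤ M * f x) : ∀ (n : ℕ) (x : G), |dTn μ f g n x| ≤ 16 ^ n * M * TTn μ f n x
  | 0, x => by
    simp only [pow_zero, one_mul]
    exact h x
  | n + 1, x => by
    have h1 := dTT_bd (μ := μ) (hf.TTn (μ := μ) n) (cont_dTn hf.cont hg n) (dTn_bd hf hg h n) x
    have e : (16 : ℝ) ^ (n + 1) * M = 16 * (16 ^ n * M) := by rw [pow_succ]; ring
    rw [e]
    exact h1

/-- the evolution is bounded -/
theorem evo_bd {f u : G → ℝ} (hf : Adm f) (hu : Continuous u) {M : ℝ} (h : ∀ x, |u x| ≤ M)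
    (n : ℕ) (x : G) : |evo μ f u n x| ≤ 2 * 16 ^ n * M := by
  have h1 := dTn_bd (μ := μ) (g := fun x => u x * f x) hf (hu.mul hf.cont) (M := M) (fun x => by
    rw [abs_mul, abs_of_pos (hf.pos x)]
    exact mul_le_mul_of_nonneg_right (h x) (hf.pos x).le) n
  have hp := (hf.TTn (μ := μ) n).pos
  have h2 : ∀ x, |dTn μ f (fun x => u x * f x) n x / TTn μ f n x| ≤ 16 ^ n * M := by
    intro x
    rw [abs_div, abs_of_pos (hp x), div_le_iff₀ (hp x)]
    exact h1 x
  unfold Pool.Agent.N681.MK.evo fld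
  refine (abs_sub _ _).trans ?_
  have := h2 x
  have := h2 1
  linarith

end

end Pool.Agent.N984.OPE
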