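import Mathlib
import Pool.Agent.N984.OPE.Lim
import Pool.Agent.N984.OPE.Lin
import Pool.Agent.N109.T3.RF
import Pool.Agent.N839.T3.Sc1

/-!
# The operator product expansion of the renormalised field
-/

open MeasureTheory Matrix Filter Pool.Agent.N991.MK Pool.Agent.N988.MK Pool.Agent.N989.MK
open scoped Matrix.Norms.Frobenius Topology
open Pool.Agent.H906R3.YM Pool.Agent.W793.YM Pool.Agent.TH618.YM Pool.Agent.N984.TW
open Pool.Agent.N681.MK (evo dTn fld TanFlow evo_add evo_nrm)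
open Pool.Agent.N109.T3 (FT FT.iter FT.iterF)
open Pool.Agent.N839.T3 (em SD)

namespace Pool.Agent.N984.OPE

set_option linter.unusedSectionVars false

noncomputable section

/-- arithmetic of the limit of the coefficients -/
lemma coef_arith {n A E X Y δ : ℝ} (h1 : |A / 2 + (n + 2) * 2 / 5| ≤ X)
    (h2 : |E + 2 * n / 5| ≤ Y) (hδ : 2 * X + 2 * Y ≤ δ) : |A - 2 * E + 8 / 5| ≤ δ := by
  have e : A - 2 * E + 8 / 5 = 2 * (A / 2 + (n + 2) * 2 / 5) - 2 * (E + 2 * n / 5) := by ring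
  rw [e]
  refine (abs_sub _ _).trans ?_
  rw [abs_mul, abs_mul, abs_two]
  linarith

section

variable {G : Type*} [Group G] [TopologicalSpace G] [IsTopologicalGroup G] [CompactSpace G]
  [MeasurableSpace G] [BorelSpace G] [SecondCountableTopology G]
  {μ : Measure G} [IsProbabilityMeasure μ] [μ.IsHaarMeasure] [μ.IsMulRightInvariant]
  [μ.IsInvInvariant] {F Φ : ℤ → G → ℝ}

/-- from the scale `-k` to a fixed scale `s` -/
theorem fixed_scale (ft : FT μ F Φ) (s : ℤ) {k : ℕ} (hk : -(k : ℤ) ≤ s) : ∃ Cs : ℝ, 0 ≤ Cs ∧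
    ∀ (m J : ℕ), k ≤ m → (J : ℤ) - m = s → ∀ (a δ : ℝ),
      (∀ x, |(evo μ (F (-m)) (fun x => Φ (-m) x ^ 2) (m - k) x - a * Φ (-k) x) *
        (F (-k) x / F (-k) 1)| ≤ δ) →
      ∀ x, |evo μ (F (-m)) (fun x => Φ (-m) x ^ 2) J x - a * Φ s x| ≤ Cs * δ := by
  obtain ⟨n0, hn0⟩ : ∃ n0 : ℕ, (n0 : ℤ) = s + k := ⟨(s + k).toNat, by omega⟩
  obtain ⟨x0, -, hx0⟩ := isCompact_univ.exists_isMinOn (Set.univ_nonempty (α := G))
    (ft.adm (-k)).cont.continuousOn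
  obtain ⟨δ0, hδ0⟩ : ∃ δ0, δ0 = F (-k) x0 / F (-k) 1 := ⟨_, rfl⟩
  have hδ0p : 0 < δ0 := by
    rw [hδ0]; exact div_pos ((ft.adm _).pos _) ((ft.adm _).pos _)
  have hmin : ∀ x, δ0 ≤ F (-k) x / F (-k) 1 := fun x => by
    rw [hδ0]
    exact div_le_div_of_nonneg_right (hx0 (Set.mem_univ x)) ((ft.adm (-k)).pos 1).le
  refine ⟨2 * 16 ^ n0 / δ0, by positivity, fun m J hkm hJ a δ hd x => ?_⟩
  obtain ⟨u, hu⟩ : ∃ u : G → ℝ, u = fun x => evo μ (F (-m)) (fun x => Φ (-m) x ^ 2) (m - k) x -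
    a * Φ (-k) x := ⟨_, rfl⟩
  have cE : Continuous (evo μ (F (-m)) (fun x => Φ (-m) x ^ 2) (m - k)) :=
    Pool.Agent.N681.MK.cont_evo (ft.adm _) ((ft.cont _).pow 2) _
  have hub : ∀ x, |u x| ≤ δ / δ0 := by
    intro x
    have h1 := hd x
    have h2 := hmin x
    rw [abs_mul, abs_of_pos (hδ0p.trans_le h2)] at h1
    rw [le_div_iff₀ hδ0p, hu]
    exact (mul_le_mul_of_nonneg_left h2 (abs_nonneg _)).trans h1
  have hcu : Continuous u := by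
    rw [hu]; exact cE.sub (continuous_const.mul (ft.cont _))
  have h3 := evo_bd (μ := μ) (ft.adm (-k)) hcu hub n0 x
  have e1 : evo μ (F (-k)) u n0 x =
      evo μ (F (-m)) (fun x => Φ (-m) x ^ 2) J x - a * Φ s x := by
    rw [hu, evo_sub (u := evo μ (F (-m)) (fun x => Φ (-m) x ^ 2) (m - k))
      (v := fun x => a * Φ (-k) x) (ft.adm _) cE (continuous_const.mul (ft.cont _)),
      Pool.Agent.N681.MK.evo_smul, ft.iter (-k) n0]
    have e2 : -(k : ℤ) + n0 = s := by omega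
    rw [e2]
    have e3 : J = (m - k) + n0 := by omega
    have e4 : evo μ (F (-m)) (fun x => Φ (-m) x ^ 2) J = evo μ (F (-k))
        (evo μ (F (-m)) (fun x => Φ (-m) x ^ 2) (m - k)) n0 := by
      rw [e3, evo_add (φ := fun x => Φ (-m) x ^ 2) (ft.adm _) ((ft.cont _).pow 2)]
      rw [← evo_nrm ((ft.adm (-m)).TTn (μ := μ) (m - k)), ft.iterF (-m) (m - k)]
      have e5 : (-(m : ℤ) + ((m - k : ℕ) : ℤ)) = -k := by omega
      rw [e5]
    rw [e4]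
  rw [e1] at h3
  refine h3.trans (le_of_eq ?_)
  field_simp

end

variable {N n : ℕ} {G : Subgroup (UN N)} {B : Frame G n}
variable [CompactSpace G] [MeasurableSpace G] [BorelSpace G] [SecondCountableTopology G]
  {μ : Measure G} [IsProbabilityMeasure μ] [μ.IsHaarMeasure] [μ.IsMulRightInvariant]
  [μ.IsInvInvariant]

/-- **the operator product expansion, for the averaged square of the field** -/
theorem ope_H (hG : IsClosed (G : Set (UN N))) (hn : 0 < n) {r c : ℝ} (hr : 0 < r) (hc : 0 < c)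
    {F Φ : ℤ → G → ℝ} (ft : FT μ F Φ)
    (hP2 : ∃ (k1 : ℕ) (K : ℝ), 0 ≤ K ∧ ∀ k : ℕ, k1 ≤ k → ∃ Kk : ℝ, 0 ≤ Kk ∧ ∀ J : ℕ,
      ∀ᶠ m : ℕ in atTop, ∃ a : ℝ,
      (∀ v : {v : Fin n → ℝ // nE v < r},
        |evo μ (F (-m)) (fun x => Φ (-m) x ^ 2) J (Eg B hG v.1) + a / 2 * nE v.1 ^ 2| ≤
        K * ((1 / 4) ^ J + 1 / m) * (nE v.1 ^ 2) ^ 2 + K / m ^ 2 * nE v.1 ^ 2) ∧
      ∀ x, |(evo μ (F (-m)) (fun x => Φ (-m) x ^ 2) (m - k) x - a * Φ (-k) x) *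
        (F (-k) x / F (-k) 1)| ≤ Kk * ((1 / 4) ^ J + 1 / m) * (1 / m))
    (hP3 : ∀ (J : ℕ) (y : Fin n → ℝ),
      Tendsto (fun m : ℕ => (c * m) ^ 2 * evo μ (F (-m)) (fun x => Φ (-m) x ^ 2) J
        (em B hG (c * m) y)) atTop
        (𝓝 (((n : ℝ) + 2) * 2 / 5 * (1 - (1 / 16) ^ J) * nE y ^ 2 + (1 / 16) ^ J / 4 * nE y ^ 4)))
    (hP4 : ∀ ε : ℝ, 0 < ε → ∃ m0 : ℕ, ∀ (m d : ℕ) (β : Pq d), m0 ≤ m → m0 ≤ d →
      |c * m * Ex μ (F (-m)) d (fun U => Φ (-m) (hol U β)) + 2 * n / 5| ≤ ε) :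
    ∀ (s : ℤ) (ε : ℝ), 0 < ε → ∃ m0 : ℕ, ∀ (m J d : ℕ) (β : Pq (J + d)) (e : ℝ), m0 ≤ m →
      (J : ℤ) - m = s → e = Ex μ (F (-m)) (J + d) (fun U => Φ (-m) (hol U β)) →
      ∀ x x' : G, |m * (evo μ (F (-m)) (fun y => (Φ (-m) y - e) ^ 2) J x -
        evo μ (F (-m)) (fun y => (Φ (-m) y - e) ^ 2) J x') +
        8 / (5 * c) * (Φ s x - Φ s x')| ≤ ε := by
  intro s ε hε
  obtain ⟨k1, K, hK, h2⟩ := hP2
  obtain ⟨k, hk⟩ : ∃ k, k = max k1 (-s).toNat := ⟨_, rfl⟩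
  have hk1 : k1 ≤ k := by rw [hk]; exact le_max_left _ _
  have hks : -(k : ℤ) ≤ s := by
    have : (-s).toNat ≤ k := by rw [hk]; exact le_max_right _ _
    omega
  obtain ⟨Kk, hKk, h2⟩ := h2 k hk1
  obtain ⟨Cs, hCs, hfix⟩ := fixed_scale ft s hks
  -- the bound of the field at the scale `s`
  obtain ⟨M, hM1, hM⟩ := Pool.Agent.N989.MK.exists_bd (ft.cont s)
  have hM0 : 0 < M + 1 := by
    have := abs_nonneg (Φ s 1)
    have := hM 1
    linarith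
  -- the unit vector
  obtain ⟨y0, hy0⟩ : ∃ y0 : Fin n → ℝ, nE y0 = 1 := by
    refine ⟨Pi.single ⟨0, hn⟩ 1, ?_⟩
    unfold nE
    rw [Finset.sum_eq_single (⟨0, hn⟩ : Fin n)]
    · simp
    · intro b _ hb
      simp [hb]
    · intro h
      exact absurd (Finset.mem_univ _) h
  -- the precision
  obtain ⟨δ, hδ⟩ : ∃ δ, δ = ε / (4 * (M + 1) / c + 4 * (Cs * Kk + 1)) := ⟨_, rfl⟩
  have hD : 0 < 4 * (M + 1) / c + 4 * (Cs * Kk + 1) := by positivity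
  have hδ0 : 0 < δ := by rw [hδ]; positivity
  have hδε : δ * (4 * (M + 1) / c + 4 * (Cs * Kk + 1)) = ε := by rw [hδ]; field_simp
  obtain ⟨J0, hJ0⟩ : ∃ J0 : ℕ, (1 / 4 : ℝ) ^ J0 ≤ δ / 2 ∧ K * (1 / 4 : ℝ) ^ J0 ≤ δ / 32 ∧
      (n + 3) * (1 / 16 : ℝ) ^ J0 ≤ δ / 16 := by
    have t1 : Tendsto (fun j : ℕ => (1 / 4 : ℝ) ^ j) atTop (𝓝 0) :=
      tendsto_pow_atTop_nhds_zero_of_lt_one (by norm_num) (by norm_num)
    have t2 : Tendsto (fun j : ℕ => K * (1 / 4 : ℝ) ^ j) atTop (𝓝 (K * 0)) := t1.const_mul K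
    have t3 : Tendsto (fun j : ℕ => ((n : ℝ) + 3) * (1 / 16 : ℝ) ^ j) atTop (𝓝 ((n + 3) * 0)) :=
      (tendsto_pow_atTop_nhds_zero_of_lt_one (by norm_num) (by norm_num)).const_mul _
    rw [mul_zero] at t2 t3
    obtain ⟨j, hj⟩ := ((t1.eventually (gt_mem_nhds (half_pos hδ0))).and
      ((t2.eventually (gt_mem_nhds (by positivity : (0 : ℝ) < δ / 32))).and
      (t3.eventually (gt_mem_nhds (by positivity : (0 : ℝ) < δ / 16))))).exists
    exact ⟨j, hj.1.le, hj.2.1.le, hj.2.2.le⟩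
  obtain ⟨j1, j2, j3⟩ := hJ0
  -- the scaling limit
  have h3 := hP3 J0 y0
  rw [hy0] at h3
  have h3' := (Metric.tendsto_nhds.1 h3) (δ / 16) (by positivity)
  obtain ⟨m4, hm4⟩ := hP4 (δ / 4) (by positivity)
  have hinv : Tendsto (fun m : ℕ => 1 / (m : ℝ)) atTop (𝓝 0) := tendsto_one_div_atTop_nhds_zero_nat
  have hev : ∀ᶠ m : ℕ in atTop, 1 ≤ m ∧ k ≤ m ∧ m4 ≤ m ∧ (m4 : ℤ) ≤ s + m ∧
      1 / (m : ℝ) ≤ δ / 2 ∧ K * (1 / (m : ℝ)) ≤ δ / 32 ∧ K * c * (1 / (m : ℝ)) ≤ δ / 32 ∧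
      1 / (c * m) < r ^ 2 := by
    have t2 : Tendsto (fun m : ℕ => K * (1 / (m : ℝ))) atTop (𝓝 (K * 0)) := hinv.const_mul K
    have t3 : Tendsto (fun m : ℕ => K * c * (1 / (m : ℝ))) atTop (𝓝 (K * c * 0)) :=
      hinv.const_mul _
    have t4 : Tendsto (fun m : ℕ => 1 / (c * (m : ℝ))) atTop (𝓝 (1 / c * 0)) := by
      refine (hinv.const_mul (1 / c)).congr fun m => ?_
      rw [one_div_mul_one_div]
    rw [mul_zero] at t2 t3 t4
    filter_upwards [eventually_ge_atTop (1 + k + m4 + (m4 + s.natAbs)),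
      hinv.eventually (gt_mem_nhds (half_pos hδ0)),
      t2.eventually (gt_mem_nhds (by positivity : (0 : ℝ) < δ / 32)),
      t3.eventually (gt_mem_nhds (by positivity : (0 : ℝ) < δ / 32)),
      t4.eventually (gt_mem_nhds (by positivity : (0 : ℝ) < r ^ 2))] with m g1 g2 g3 g4 g5
    exact ⟨by omega, by omega, by omega, by omega, g2.le, g3.le, g4.le, g5⟩
  obtain ⟨m0, hm0⟩ := eventually_atTop.1 (hev.and (h3'.and (h2 J0)))
  refine ⟨m0, fun m J d β e hm hJ he x x' => ?_⟩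
  obtain ⟨⟨g1, g2, g3, g4, g5, g6, g7, g8⟩, g9, a, g10, g11⟩ := hm0 m hm
  have hmp : (0 : ℝ) < m := by exact_mod_cast (by omega : 0 < m)
  have hcm : 0 < c * (m : ℝ) := by positivity
  -- the coefficient
  obtain ⟨E, hE⟩ : ∃ E, E = evo μ (F (-m)) (fun x => Φ (-m) x ^ 2) J0 (em B hG (c * m) y0) :=
    ⟨_, rfl⟩
  have hnv : nE ((Real.sqrt (c * m))⁻¹ • y0) ^ 2 = 1 / (c * m) := by
    rw [Pool.Agent.N988.MK.nE_smul, hy0, mul_one, abs_of_pos (inv_pos.2 (Real.sqrt_pos.2 hcm)),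
      inv_pow, Real.sq_sqrt hcm.le, one_div]
  have hnr : nE ((Real.sqrt (c * m))⁻¹ • y0) < r := by
    have h4 : nE ((Real.sqrt (c * m))⁻¹ • y0) ^ 2 < r ^ 2 := by rw [hnv]; exact g8
    exact (abs_lt_of_sq_lt_sq' h4 hr.le).2
  have h5 := g10 ⟨_, hnr⟩
  beta_reduce at h5
  rw [hnv] at h5
  have h6 : |E + a / 2 * (1 / (c * m))| ≤
      K * ((1 / 4) ^ J0 + 1 / m) * (1 / (c * m)) ^ 2 + K / m ^ 2 * (1 / (c * m)) := by
    rw [hE]
    exact h5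
  have h7 : |(c * m) ^ 2 * E + a * (c * m) / 2| ≤ δ / 16 + δ / 32 := by
    have e1 : (c * m) ^ 2 * E + a * (c * m) / 2 = (c * m) ^ 2 * (E + a / 2 * (1 / (c * m))) := by
      field_simp
    rw [e1, abs_mul, abs_of_pos (by positivity)]
    refine (mul_le_mul_of_nonneg_left h6 (by positivity)).trans ?_
    have e2 : (c * m) ^ 2 * (K * ((1 / 4) ^ J0 + 1 / m) * (1 / (c * m)) ^ 2 +
        K / m ^ 2 * (1 / (c * m))) = K * (1 / 4) ^ J0 + K * (1 / m) + K * c * (1 / m) := by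
      field_simp
    rw [e2]
    linarith
  have h8 : |(c * m) ^ 2 * E - (((n : ℝ) + 2) * 2 / 5 * (1 - (1 / 16) ^ J0) * 1 ^ 2 +
      (1 / 16) ^ J0 / 4 * 1 ^ 4)| < δ / 16 := by
    rw [hE]
    exact g9
  have h9 : |a * (c * m) / 2 + ((n : ℝ) + 2) * 2 / 5| ≤ δ / 4 := by
    have e1 : a * (c * m) / 2 + ((n : ℝ) + 2) * 2 / 5 = ((c * m) ^ 2 * E + a * (c * m) / 2) -
        ((c * m) ^ 2 * E - (((n : ℝ) + 2) * 2 / 5 * (1 - (1 / 16) ^ J0) * 1 ^ 2 +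
      (1 / 16) ^ J0 / 4 * 1 ^ 4)) + (((n : ℝ) + 2) * 2 / 5 - 1 / 4) * (1 / 16) ^ J0 := by ring
    rw [e1]
    have e2 : |(((n : ℝ) + 2) * 2 / 5 - 1 / 4) * (1 / 16) ^ J0| ≤ δ / 16 := by
      have hnn : (0 : ℝ) ≤ n := Nat.cast_nonneg n
      rw [abs_mul, abs_of_nonneg (by linarith), abs_of_nonneg (by positivity)]
      refine le_trans (mul_le_mul_of_nonneg_right ?_ (by positivity)) j3
      linarith
    refine (abs_add_le _ _).trans ((add_le_add (abs_sub _ _) le_rfl).trans ?_)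
    linarith
  -- the one-point function
  have h10 := hm4 m (J + d) β g3 (by omega)
  rw [← he] at h10
  have h11 : |a * (c * m) - 2 * (c * m * e) + 8 / 5| ≤ δ := by
    refine coef_arith (n := n) h9 h10 ?_
    linarith
  -- the fixed scale
  have h12 := hfix m J g2 hJ a _ g11
  have key : ∀ x : G, |m * evo μ (F (-m)) (fun y => (Φ (-m) y - e) ^ 2) J x +
      8 / (5 * c) * Φ s x| ≤ ε / 2 := by
    intro x
    have h13 := h12 x
    rw [evo_quad (ft.adm _) (ft.cont _), ft.iter (-m) J]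
    have e1 : -(m : ℤ) + J = s := by omega
    rw [e1]
    obtain ⟨Q, hQ⟩ : ∃ Q, Q = evo μ (F (-m)) (fun x => Φ (-m) x ^ 2) J x := ⟨_, rfl⟩
    have h14 : |Q - a * Φ s x| ≤ Cs * (Kk * ((1 / 4) ^ J0 + 1 / m) * (1 / m)) := by
      rw [hQ]; exact h13
    rw [← hQ]
    have e2 : (m : ℝ) * (Q - 2 * e * Φ s x) + 8 / (5 * c) * Φ s x = m * (Q - a * Φ s x) +
        (a * (c * m) - 2 * (c * m * e) + 8 / 5) * (Φ s x / c) := by
      field_simp
      ring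
    rw [e2]
    refine (abs_add_le _ _).trans ?_
    rw [abs_mul, abs_mul, abs_of_pos hmp, abs_div, abs_of_pos hc]
    have h15 : (m : ℝ) * |Q - a * Φ s x| ≤ Cs * Kk * δ := by
      refine (mul_le_mul_of_nonneg_left h14 hmp.le).trans ?_
      have e3 : (m : ℝ) * (Cs * (Kk * ((1 / 4) ^ J0 + 1 / m) * (1 / m))) =
          Cs * Kk * ((1 / 4) ^ J0 + 1 / m) := by field_simp
      rw [e3]
      refine mul_le_mul_of_nonneg_left ?_ (by positivity)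
      linarith
    have h16 : |a * (c * m) - 2 * (c * m * e) + 8 / 5| * (|Φ s x| / c) ≤ δ * ((M + 1) / c) := by
      refine mul_le_mul h11 ?_ (by positivity) hδ0.le
      refine div_le_div_of_nonneg_right ?_ hc.le
      have := hM x
      linarith
    have h17 : Cs * Kk * δ + δ * ((M + 1) / c) ≤ ε / 2 := by
      rw [← hδε]
      have t1 : 0 ≤ δ * ((M + 1) / c) := by positivity
      have t2 : 0 ≤ Cs * Kk * δ := by positivity
      have t3 : δ * (4 * (M + 1) / c + 4 * (Cs * Kk + 1)) / 2 =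
          2 * (δ * ((M + 1) / c)) + 2 * (Cs * Kk * δ) + 2 * δ := by ring
      rw [t3]
      linarith
    linarith
  have k1 := key x
  have k2 := key x'
  have e1 : (m : ℝ) * (evo μ (F (-m)) (fun y => (Φ (-m) y - e) ^ 2) J x -
        evo μ (F (-m)) (fun y => (Φ (-m) y - e) ^ 2) J x') + 8 / (5 * c) * (Φ s x - Φ s x') =
      (m * evo μ (F (-m)) (fun y => (Φ (-m) y - e) ^ 2) J x + 8 / (5 * c) * Φ s x) -
      (m * evo μ (F (-m)) (fun y => (Φ (-m) y - e) ^ 2) J x' + 8 / (5 * c) * Φ s x') := by ring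
  rw [e1]
  refine (abs_sub _ _).trans ?_
  linarith

end

end Pool.Agent.N984.OPE
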