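import Mathlib
import Pool.Agent.N984.OPE.SqDef
import Pool.Agent.N988.MK.Tan10
import Pool.Agent.N988.MK.Tan11
import Pool.Agent.N988.MK.Tan8

/-!
# The square of a renormalised field is a tangent vector
-/

open MeasureTheory Filter Metric Asymptotics Matrix
open scoped Matrix.Norms.Frobenius Topology ContDiff
open Pool.Agent.H906R3.YM Pool.Agent.W793.YM Pool.Agent.TH618.YM Pool.Agent.N984.TW
open Pool.Agent.N991.MK Pool.Agent.N988.MK

namespace Pool.Agent.N984.OPE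

set_option linter.unusedSectionVars false

noncomputable section

variable {N n : ℕ} {G : Subgroup (UN N)} {B : Frame G n}
variable {r ε k M a lam L t : ℝ} {f g : G → ℝ} {F F' H H' : (Mat N)ˣ → ℂ}
  {m η : (Fin n → ℂ) → ℂ}

/-- **the square** -/
lemma Tg_sq {l : ℝ} (T : Tg B r k a l l F H η) (hr1 : r ≤ 1) (hS : TubeS B r k F)
    (h1 : F 1 = 1) :
    Tg B r (4 * k) 0 (16 * (|a| + l) ^ 2) (16 * (|a| + l) ^ 2) (fun u => F u ^ 4)
      (fun u => 16 * (F u ^ 2 * H u ^ 2)) (fun x => -16 * (-(a / 2) * qC x - η x) ^ 2) where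
  lam0 := by positivity
  L0 := by positivity
  near x hx := by
    rw [T.near x hx]
    push_cast
    ring
  md x hx := (differentiableAt_const _).mul
    ((((differentiableAt_const _).mul (qC_diff x)).sub (T.md x hx)).pow 2)
  even x hx := by
    rw [T.even x hx, qC_neg]
  bd x hx := by
    have hl := T.lam0
    have h0 := Pool.Agent.N991.MK.nC_nonneg x
    have hq : ‖-((a : ℂ) / 2) * qC x - η x‖ ≤ (|a| + l) * nC x ^ 2 := by
      refine (norm_sub_le _ _).trans ?_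
      rw [norm_mul, norm_neg, norm_div, Complex.norm_real, Real.norm_eq_abs]
      have n1 := norm_qC_le x
      have n2 := T.bd x hx
      have e2 : ‖(2 : ℂ)‖ = 2 := by norm_num
      rw [e2]
      have n3 : nC x ^ 2 ≤ 1 := pow_le_one₀ h0 (by linarith)
      have n4 : l * nC x ^ 4 ≤ l * nC x ^ 2 := by
        refine mul_le_mul_of_nonneg_left ?_ hl
        have e4 : nC x ^ 4 = nC x ^ 2 * nC x ^ 2 := by ring
        rw [e4]
        exact mul_le_of_le_one_right (by positivity) n3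
      have n5 : |a| / 2 * ‖qC x‖ ≤ |a| * nC x ^ 2 := by
        have ha := abs_nonneg a
        calc |a| / 2 * ‖qC x‖ ≤ |a| / 2 * nC x ^ 2 := mul_le_mul_of_nonneg_left n1 (by positivity)
          _ ≤ |a| * nC x ^ 2 := mul_le_mul_of_nonneg_right (by linarith) (by positivity)
      linarith
    rw [norm_mul, norm_pow]
    have e16 : ‖(-16 : ℂ)‖ = 16 := by norm_num
    rw [e16]
    calc 16 * ‖-((a : ℂ) / 2) * qC x - η x‖ ^ 2 ≤ 16 * ((|a| + l) * nC x ^ 2) ^ 2 :=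
          mul_le_mul_of_nonneg_left (pow_le_pow_left₀ (norm_nonneg _) hq 2) (by norm_num)
      _ = _ := by ring
  far v y hv hcs := by
    have h2 := hS v y hv hcs
    have h3 := T.far v y hv hcs
    have hl := T.lam0
    have ha := abs_nonneg a
    rw [h1, norm_one, mul_one] at h2
    obtain ⟨X, hX⟩ : ∃ X : ℝ, X = 1.01 * nE v ^ 2 - 0.99 * min (nN y) r ^ 2 := ⟨_, rfl⟩
    rw [← hX] at h2 h3 ⊢
    obtain ⟨E, hE⟩ : ∃ E : ℝ, E = Real.exp (k / 2 * X) := ⟨_, rfl⟩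
    rw [← hE] at h2 h3
    have hE0 : 0 < E := by rw [hE]; exact Real.exp_pos _
    have e1 : Real.exp (4 * k / 2 * X) = E ^ 4 := by
      rw [hE, ← Real.exp_nat_mul]
      congr 1
      push_cast
      ring
    rw [e1, norm_mul, norm_mul, norm_pow, norm_pow]
    have e16 : ‖(16 : ℂ)‖ = 16 := by norm_num
    rw [e16]
    have h4 : ‖F (uE B (Complex.I • rl v) * uG y)‖ ^ 2 ≤ (1 / 2 * E) ^ 2 :=
      pow_le_pow_left₀ (norm_nonneg _) h2 2
    have h5 : ‖H (uE B (Complex.I • rl v) * uG y)‖ ^ 2 ≤ (l * E) ^ 2 :=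
      pow_le_pow_left₀ (norm_nonneg _) h3 2
    calc 16 * (‖F (uE B (Complex.I • rl v) * uG y)‖ ^ 2 *
          ‖H (uE B (Complex.I • rl v) * uG y)‖ ^ 2) ≤ 16 * ((1 / 2 * E) ^ 2 * (l * E) ^ 2) := by
          refine mul_le_mul_of_nonneg_left ?_ (by norm_num)
          exact mul_le_mul h4 h5 (by positivity) (by positivity)
      _ = 4 * l ^ 2 * E ^ 4 := by ring
      _ ≤ 16 * (|a| + l) ^ 2 * E ^ 4 := by
          refine mul_le_mul_of_nonneg_right ?_ (by positivity)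
          nlinarith

variable [CompactSpace G] [MeasurableSpace G] [BorelSpace G]

/-- **the tangent map of the renormalisation group step** -/
theorem lin_sq {μ : Measure G} [IsProbabilityMeasure μ] {r ε k₀ K : ℝ} (hr : 0 < r)
    (hr1 : r ≤ 1) (hε : ε ≤ 1)
    (hk₀ : 1 ≤ k₀) (hK : 0 ≤ K) (LC : LinC B μ r ε k₀ K) :
    ∃ k₁ K' : ℝ, 1 ≤ k₁ ∧ 0 ≤ K' ∧ ∀ {k M a l : ℝ} {f g : G → ℝ} {F H : (Mat N)ˣ → ℂ}
      {m η : (Fin n → ℂ) → ℂ}, k₁ ≤ k → f 1 ≠ 0 →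
      NS B r ε k M (nf f) F m → TubeS B r k F → CF (ng f g) H → Tg B r k a l l F H η →
      ∃ (k' M' : ℝ) (F' H' : (Mat N)ˣ → ℂ) (m' η' : (Fin n → ℂ) → ℂ),
        NS B r ε k' M' (nf (Rst μ f)) F' m' ∧
        CF (ng (Rst μ f) (fun x => Pool.Agent.N681.MK.fld (Rst μ f) (dTT μ f g) x ^ 2 *
          Rst μ f x)) H' ∧
        Tg B r k' 0 (K' * (|a| + l) ^ 2) (K' * (|a| + l) ^ 2) F' H' η' := by
  obtain ⟨Q, hQ⟩ : ∃ Q, Q = 80 * K ^ 2 + 70 * K := ⟨_, rfl⟩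
  have hQ0 : 0 ≤ Q := by rw [hQ]; positivity
  obtain ⟨E, hE⟩ : ∃ E, E = 1 + Q + Q * (2 + 1 / r ^ 2) := ⟨_, rfl⟩
  have hE0 : 0 ≤ E := by rw [hE]; positivity
  refine ⟨max (max (4 * k₀) (4 * K)) (max (2 * (K * (3 + 1 / r ^ 2))) (128 * K)),
    16 * E ^ 2, by
      refine le_trans ?_ ((le_max_left _ _).trans (le_max_left _ _))
      linarith, by positivity, fun {k M a l f g F H m η} hk hf1 hN hS hg T => ?_⟩
  have b1 : 4 * k₀ ≤ k := ((le_max_left _ _).trans (le_max_left _ _)).trans hk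
  have b2 : 4 * K ≤ k := ((le_max_right _ _).trans (le_max_left _ _)).trans hk
  have b3 : 2 * (K * (3 + 1 / r ^ 2)) ≤ k :=
    ((le_max_left _ _).trans (le_max_right _ _)).trans hk
  have b4 : 128 * K ≤ k := ((le_max_right _ _).trans (le_max_right _ _)).trans hk
  have hk0 : 0 < k := by linarith
  have hk1 : 1 ≤ k := by linarith
  have hl := T.lam0
  have ha := abs_nonneg a
  obtain ⟨k1, M1, a1, F1, H1, m1, η1, N1, S1, G1, T1, c1, c2, c3⟩ :=
    LC (by linarith : k₀ ≤ k) hN hS hg T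
  have c1' := abs_le.1 c1
  obtain ⟨k2, M2, a2, F2, H2, m2, η2, N2, S2, G2, T2, d1, d2, d3⟩ :=
    LC (by linarith : k₀ ≤ k1) N1 S1 G1 T1
  obtain ⟨e1, e2⟩ := lin_num hr hε hK hl hN.M0 hN.Ml (by linarith) b2 b3 b4 rfl c1 c2 N1.M0
    c3 d3
  rw [← hQ] at e1 e2
  obtain ⟨l2, hl2⟩ : ∃ l2, l2 = (l / 8 + K * (|a| + l) / k) / 8 +
    K * (|a1| + (l / 8 + K * (|a| + l) / k)) / k1 := ⟨_, rfl⟩
  rw [← hl2] at e1 T2
  have hl20 := T2.lam0
  -- the size of the tangent vector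
  have hsize : |a2| + l2 ≤ E * (|a| + l) := by
    have g1 : Q * |a| / k ≤ Q * |a| := div_le_self (by positivity) hk1
    have g2 : l2 ≤ l + Q * |a| := by linarith
    have g3 : (1 + M) / k ^ 2 ≤ 1 + 1 / r ^ 2 := by
      rw [div_le_iff₀ (by positivity)]
      have f1 : M * r ^ 2 ≤ k := hN.Ml.trans (mul_le_of_le_one_left hk0.le hε)
      have f2 : M ≤ 1 / r ^ 2 * k := by
        rw [one_div_mul_eq_div, le_div_iff₀ (by positivity)]
        exact f1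
      have f3 : k ≤ k ^ 2 := by nlinarith
      have f4 : 0 ≤ 1 / r ^ 2 := by positivity
      have f5 : 1 / r ^ 2 * k ≤ 1 / r ^ 2 * k ^ 2 := mul_le_mul_of_nonneg_left f3 f4
      have f6 : (1 + 1 / r ^ 2) * k ^ 2 = k ^ 2 + 1 / r ^ 2 * k ^ 2 := by ring
      linarith
    have g4 : l / k ≤ l := div_le_self hl hk1
    have g5 : (|a| + l) * (1 + M) / k ^ 2 ≤ (|a| + l) * (1 + 1 / r ^ 2) := by
      rw [mul_div_assoc]
      exact mul_le_mul_of_nonneg_left g3 (by positivity)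
    have g6 : |4 * a2 - a| ≤ Q * (l + (|a| + l) * (1 + 1 / r ^ 2)) :=
      e2.trans (mul_le_mul_of_nonneg_left (by linarith) hQ0)
    have g7 : 4 * |a2| ≤ |a| + |4 * a2 - a| := by
      have h4 : |4 * a2| = 4 * |a2| := by rw [abs_mul]; norm_num
      have h5 := abs_sub_abs_le_abs_sub (4 * a2) a
      rw [h4] at h5
      linarith
    have g8 : |a2| ≤ |a| + Q * (l + (|a| + l) * (1 + 1 / r ^ 2)) := by
      have := abs_nonneg a2
      linarith
    have g9 : Q * l ≤ Q * (|a| + l) := mul_le_mul_of_nonneg_left (by linarith) hQ0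
    have g10 : Q * |a| ≤ Q * (|a| + l) := mul_le_mul_of_nonneg_left (by linarith) hQ0
    have g11 : E * (|a| + l) = |a| + l + Q * (|a| + l) + (Q * (|a| + l) +
        Q * ((|a| + l) * (1 + 1 / r ^ 2))) := by rw [hE]; ring
    have g12 : Q * (l + (|a| + l) * (1 + 1 / r ^ 2)) = Q * l +
        Q * ((|a| + l) * (1 + 1 / r ^ 2)) := by ring
    linarith
  -- the algebra
  obtain ⟨φ, hφ⟩ : ∃ φ, φ = nf (conv μ (nf f) (nf f)) := ⟨_, rfl⟩
  obtain ⟨γ, hγ⟩ : ∃ γ, γ = ng (conv μ (nf f) (nf f)) (dcv μ (nf f) (ng f g)) := ⟨_, rfl⟩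
  rw [← hφ] at N1 N2 G2
  rw [← hγ] at G1 G2
  have hW : conv μ (nf f) (nf f) 1 ≠ 0 := by
    intro h0
    have h1 := N1.cf.res 1
    have h2 : (uG (1 : G) : (Mat N)ˣ) = 1 := map_one _
    rw [h2, N1.one, hφ] at h1
    unfold nf at h1
    unfold nf at h0
    rw [h0] at h1
    simp at h1
  have hW2 : conv μ φ φ 1 ≠ 0 := by
    intro h0
    have h1 := N2.cf.res 1
    have h2 : (uG (1 : G) : (Mat N)ˣ) = 1 := map_one _
    rw [h2, N2.one] at h1
    unfold nf at h1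
    rw [h0] at h1
    simp at h1
  obtain ⟨c, hc⟩ : ∃ c, c = f 1 ^ 2 * conv μ (nf f) (nf f) 1 := ⟨_, rfl⟩
  have hc0 : c ≠ 0 := by rw [hc]; exact mul_ne_zero (pow_ne_zero 2 hf1) hW
  obtain ⟨e, he⟩ : ∃ e, e = f 1 ^ 2 * dcv μ (nf f) (ng f g) 1 +
      2 * f 1 * g 1 * conv μ (nf f) (nf f) 1 := ⟨_, rfl⟩
  have u1 : ∀ x, conv μ f f x = c * φ x := by
    intro x
    rw [conv_sq_lin (eq_nf hf1) x, eq_nf hW x, hc, hφ]
    ring
  have v1 : ∀ x, dcv μ f g x = c * γ x + e * φ x := by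
    intro x
    rw [dcv_lin hN.cf.cont hg.cont (eq_nf hf1) (eq_ng hf1) x,
      eq_ng (f := conv μ (nf f) (nf f)) (g := dcv μ (nf f) (ng f g)) hW x, hc, he]
    rw [eq_nf (f := conv μ (nf f) (nf f)) hW x, hγ, hφ]
    ring
  have u2 : ∀ x, conv μ (conv μ f f) (conv μ f f) x = c ^ 2 * conv μ φ φ x :=
    fun x => conv_sq_lin u1 x
  have v2 : ∀ x, dcv μ (conv μ f f) (dcv μ f g) x = c ^ 2 * dcv μ φ γ x +
      2 * c * e * conv μ φ φ x := by
    intro x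
    rw [dcv_lin N1.cf.cont G1.cont u1 v1 x]
    ring
  have w1 : nf (Rst μ f) = fun x => nf (conv μ φ φ) x ^ 4 := by
    funext x
    have h1 : Rst μ f = fun x => conv μ (conv μ f f) (conv μ f f) x ^ 4 := rfl
    rw [h1, nf_pow, nf_lin (pow_ne_zero 2 hc0) u2 x]
  have w2 : ng (Rst μ f) (dTT μ f g) = fun x => 4 * nf (conv μ φ φ) x ^ 3 *
      ng (conv μ φ φ) (dcv μ φ γ) x := by
    funext x
    have h1 : Rst μ f = fun x => conv μ (conv μ f f) (conv μ f f) x ^ 4 := rfl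
    have h2 : dTT μ f g = fun x => 4 * conv μ (conv μ f f) (conv μ f f) x ^ 3 *
        dcv μ (conv μ f f) (dcv μ f g) x := rfl
    have h3 : conv μ (conv μ f f) (conv μ f f) 1 ≠ 0 := by
      rw [u2]; exact mul_ne_zero (pow_ne_zero 2 hc0) hW2
    rw [h1, h2, ng_pow h3, nf_lin (pow_ne_zero 2 hc0) u2 x,
      ng_lin hW2 (pow_ne_zero 2 hc0) u2 v2 x, div_self (pow_ne_zero 2 hc0), one_mul]
  have hR1 : Rst μ f 1 ≠ 0 := by
    have h1 : Rst μ f 1 = conv μ (conv μ f f) (conv μ f f) 1 ^ 4 := rfl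
    rw [h1, u2]
    exact pow_ne_zero _ (mul_ne_zero (pow_ne_zero 2 hc0) hW2)
  have hpos : ∀ x, nf (conv μ φ φ) x ≠ 0 := fun x => (N2.pos x).ne'
  have hRx : ∀ x, Rst μ f x ≠ 0 := by
    intro x
    have h1 := congrFun w1 x
    beta_reduce at h1
    intro h0
    unfold nf at h1
    rw [h0, mul_zero] at h1
    exact pow_ne_zero 4 (hpos x) h1.symm
  have hfld : ∀ x, Pool.Agent.N681.MK.fld (Rst μ f) (dTT μ f g) x =
      4 * ng (conv μ φ φ) (dcv μ φ γ) x / nf (conv μ φ φ) x := by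
    intro x
    have h1 : Pool.Agent.N681.MK.fld (Rst μ f) (dTT μ f g) x =
        ng (Rst μ f) (dTT μ f g) x / nf (Rst μ f) x := by
      have h2 := hRx x
      unfold Pool.Agent.N681.MK.fld ng nf
      field_simp
    have h3 := hpos x
    rw [h1, w1, w2]
    beta_reduce
    field_simp
  have w3 : ng (Rst μ f) (fun x => Pool.Agent.N681.MK.fld (Rst μ f) (dTT μ f g) x ^ 2 *
      Rst μ f x) = fun x => 16 * (nf (conv μ φ φ) x ^ 2 * ng (conv μ φ φ) (dcv μ φ γ) x ^ 2) := by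
    funext x
    have h0 : Pool.Agent.N681.MK.fld (Rst μ f) (dTT μ f g) 1 = 0 := by
      unfold Pool.Agent.N681.MK.fld
      exact sub_self _
    have h1 : ng (Rst μ f) (fun x => Pool.Agent.N681.MK.fld (Rst μ f) (dTT μ f g) x ^ 2 *
        Rst μ f x) x = Pool.Agent.N681.MK.fld (Rst μ f) (dTT μ f g) x ^ 2 * nf (Rst μ f) x := by
      unfold ng nf
      beta_reduce
      rw [h0]
      ring
    have h3 := hpos x
    rw [h1, hfld, w1]
    beta_reduce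
    field_simp
    ring
  have hcf : CF (fun x => 16 * (nf (conv μ φ φ) x ^ 2 * ng (conv μ φ φ) (dcv μ φ γ) x ^ 2))
      (fun u => 16 * (F2 u ^ 2 * H2 u ^ 2)) := by
    have h1 := cf_smul ((N2.cf.pow 2).mul (G2.pow 2)) 16
    refine ⟨?_, ?_, ?_, ?_⟩
    · have := h1.hol
      simpa using this
    · have := h1.cls
      simpa using this
    · have := h1.sym
      simpa using this
    · have := h1.res
      simpa using this
  refine ⟨4 * k2, 4 * M2, _, _, _, _, w1 ▸ N2.pow4, w3 ▸ hcf, Tg.mono (Tg_sq T2 hr1 S2 N2.one) ?_ ?_⟩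
  all_goals
    have h5 : (|a2| + l2) ^ 2 ≤ (E * (|a| + l)) ^ 2 :=
      pow_le_pow_left₀ (by positivity) hsize 2
    have h6 : 16 * E ^ 2 * (|a| + l) ^ 2 = 16 * (E * (|a| + l)) ^ 2 := by ring
    rw [h6]
    linarith

variable [SecondCountableTopology G]

/-- **the square of a renormalised field is a tangent vector** -/
theorem exists_sq (μ : Measure G) [IsProbabilityMeasure μ] [μ.IsHaarMeasure]
    [μ.IsMulRightInvariant] [μ.IsInvInvariant] (hG : IsClosed (G : Set (UN N))) (hI : IsoG B)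
    (hn : 0 < n) {cA : ℝ}
    (hcA : ∀ x : Fin n → ℝ, ∑ a, ‖LX B x * B.X a - B.X a * LX B x‖ ^ 2 = cA * nE x ^ 2)
    (h6 : H6 B) (hcas : CasPair B cA) :
    ∃ r₁ ε₁ : ℝ, 0 < r₁ ∧ 0 < ε₁ ∧ ∀ ε : ℝ, 0 < ε → ε ≤ ε₁ →
      ∀ r : ℝ, 0 < r → r ≤ r₁ → ∀ h0 C1 : ℝ, ∃ h1 C' : ℝ, 1 ≤ h1 ∧ 0 ≤ C' ∧
        SqStep μ (PT B μ r ε h0 C1) (TSt B r) h1 C' := by
  obtain ⟨r₁, ε₁, hr₁, hr₁1, hε₁, hε₁2, hD⟩ := exists_linC (B := B) μ hG hI hn hcA h6 hcas
  refine ⟨r₁, ε₁, hr₁, hε₁, fun ε hε hεε r hr hrr h0 C1 => ?_⟩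
  obtain ⟨hgr, k₀, K, hk₀, hK, LC⟩ := hD ε hε hεε r hr hrr
  obtain ⟨k₁, K', hk₁, hK', hlin⟩ := lin_sq (B := B) (μ := μ) hr (hrr.trans hr₁1)
    (by linarith) hk₀ hK LC
  refine ⟨k₁, K', hk₁, hK', fun f g h ρ h' ρ' a l hP hP' T hh hh' => ?_⟩
  obtain ⟨hρ, hf1, F, m, hN, hS⟩ := PT_ns hG hP
  obtain ⟨H, η, hg, T⟩ := T.of hG hN.cf
  obtain ⟨k', M', F', H', m', η', b1, b2, b3⟩ := hlin hh hf1.ne' hN hS hg T
  obtain ⟨-, F'', m'', c1, c2, c3, -⟩ := hP'.1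
  have e1 : k' = h' := by
    refine coupling_uniq hG hr hn (c := Rst μ f 1) (c2 1) ?_ b1 c1 c3
    funext x
    exact eq_nf (c2 1).ne' x
  subst e1
  exact ⟨F', H', η', b1.cf, b2, b3⟩

end

end Pool.Agent.N984.OPE
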