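import Mathlib
import Pool.Agent.N984.OPE.Sq
import Pool.Agent.N984.OPE.Lim
import Pool.Agent.N109.T3.Flw
import Pool.Agent.N989.MK.Model
import Pool.Agent.N988.MK.Tan12
import Pool.Agent.N988.MK.Tan14

/-!
# The square of the renormalised field of a limit theory
-/

open MeasureTheory Matrix Filter Pool.Agent.N991.MK Pool.Agent.N988.MK Pool.Agent.N989.MK
open scoped Matrix.Norms.Frobenius Topology
open Pool.Agent.H906R3.YM Pool.Agent.W793.YM Pool.Agent.TH618.YM Pool.Agent.N984.TW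
open Pool.Agent.N681.MK (evo fld TanFlow)

namespace Pool.Agent.N984.OPE

set_option linter.unusedSectionVars false

noncomputable section

variable {N n : ℕ} {G : Subgroup (UN N)}
variable [MeasurableSpace G] [BorelSpace G] [CompactSpace G] [ConnectedSpace G]
  [SecondCountableTopology G]

/-- **the averaged square of the renormalised field of a limit theory** -/
theorem sq_data (μ : Measure G) [IsProbabilityMeasure μ] [μ.IsHaarMeasure]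
    [μ.IsMulRightInvariant] [μ.IsInvInvariant] (hG : SimpleGroup G) (B : Frame G n) {cA : ℝ}
    (hcA : ∀ x : Fin n → ℝ, ∑ a, ‖LX B x * B.X a - B.X a * LX B x‖ ^ 2 = cA * ∑ a, x a ^ 2) :
    ∃ r₁ ε₁ : ℝ, 0 < r₁ ∧ 0 < ε₁ ∧ ∀ (r ε hq K : ℝ), 0 < r → r ≤ r₁ → 0 < ε → ε ≤ ε₁ →
      ∀ {o : G → ℝ} {h2 C' c C R : ℝ},
      TanFlow μ (PT B μ r ε hq K) (TSt B r) o 1 h2 C' 0 → 0 < c → 0 ≤ C → 0 ≤ R →
      Continuous o → ∀ {f : ℕ → G → ℝ} {l : ℕ → ℕ}, (∀ i, Adm (f i)) → Tendsto l atTop atTop →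
      (∀ hq' : ℝ, ∃ k0 : ℕ, ∀ k : ℕ, k0 ≤ k → ∃ Hu : ℝ, ∀ᶠ i in atTop, ∃ h ρ,
        TP μ (PT B μ r ε hq K) c C hq' R (f i) (l i - k) h ρ ∧ h (l i - k) ≤ Hu) →
      ∀ {F Φ : ℤ → G → ℝ}, (∀ k, Adm (F k)) → (∀ k, Continuous (Φ k)) →
      (∀ k : ℤ, UT (fun i x => nrm μ (TTn μ (f i) ((l i : ℤ) + k).toNat) x) (F k)) →
      (∀ k : ℤ, UT (fun i => evo μ (f i) o ((l i : ℤ) + k).toNat) (Φ k)) →
      ∃ (k1 : ℕ) (K : ℝ), 0 ≤ K ∧ ∀ k : ℕ, k1 ≤ k → ∃ Kk : ℝ, 0 ≤ Kk ∧ ∀ J : ℕ,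
        ∀ᶠ m : ℕ in atTop, ∃ a : ℝ,
        (∀ v : {v : Fin n → ℝ // nE v < r},
          |evo μ (F (-m)) (fun x => Φ (-m) x ^ 2) J (Eg B hG.closed v.1) +
            a / 2 * nE v.1 ^ 2| ≤
          K * ((1 / 4) ^ J + 1 / m) * (nE v.1 ^ 2) ^ 2 + K / m ^ 2 * nE v.1 ^ 2) ∧
        ∀ x, |(evo μ (F (-m)) (fun x => Φ (-m) x ^ 2) (m - k) x - a * Φ (-k) x) *
          (F (-k) x / F (-k) 1)| ≤ Kk * ((1 / 4) ^ J + 1 / m) * (1 / m) := by
  have hIs : IsoG B := isoG_of_simple B hG.closed hG.nonabelian hG.simple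
  have hn : 0 < n := frame_pos B hG.closed hG.nonabelian
  obtain ⟨r₁, ε₁, hr₁, hε₁, hS⟩ := exists_sq (B := B) μ hG.closed hIs hn
    (fun x => by rw [hcA x, Pool.Agent.N991.MK.nE_sq]) (h6_all B) (casPair hG.closed hcA)
  refine ⟨r₁, ε₁, hr₁, hε₁, ?_⟩
  intro r ε hq K hr hrr hε hεε o h2 C' c C R TF hc hC hR ho f l hf hl hex F Φ hF hΦc hconv hΦ
  obtain ⟨h3, C3, -, hC3, hSq⟩ := hS ε hε hεε r hr hrr hq K
  exact sq_limit (ι := {v : Fin n → ℝ // nE v < r}) (X := fun v => Eg B hG.closed v.1)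
    (q := fun v => nE v.1 ^ 2) TF hSq hC3
    (fun f g h a e s T => Pool.Agent.N109.T3.TSt_smul T s) hc hC hR ho hf hl hex
    (fun v => sq_nonneg _)
    (fun f g h ρ a e hP T v => by
      have := TSt.near hG.closed hP.1 T v.2
      rwa [← pow_mul]) hF hΦc hconv hΦ

end

end Pool.Agent.N984.OPE
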